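import Pool.Agent.Helper785.TL5.Defs

set_option autoImplicit false
open Set Metric Pool.Agent.Helper676.TL Pool.Agent.Helper785.TL
open scoped ContDiff

namespace Pool.Agent.Helper785.TL5
namespace J_ann_val




theorem ann_val (C : ℝ) (hC : 0 ≤ C) : ∃ C' : ℝ, 0 < C' ∧ ∀ (t h : ℝ) (a b : ℂ → ℂ),
    t < 1 / 100 → Fields C t h a b → ∀ ζ ∈ An,
      ‖a ζ ^ 2 - 1‖ ≤ C' * Real.sqrt t ∧ ‖b ζ‖ ≤ C' * t ∧ ‖cj (b ζ) ^ 2‖ ≤ C' * Real.sqrt t ∧
      ‖PP t a b ζ - P0 h ζ‖ ≤ C' * Real.sqrt t := by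
  obtain ⟨E, hE⟩ : ∃ E, E = 12 + 2 * C := ⟨_, rfl⟩
  have hE12 : 12 ≤ E := by rw [hE]; linarith
  have q1 : 0 ≤ C * (2 + C) := by positivity
  have q2 : 0 ≤ E ^ 2 := by positivity
  have q3 : 0 ≤ 23 * (C * E + 2 * C) := by positivity
  refine ⟨1 + C * (2 + C) + E + E ^ 2 + 23 * (C * E + 2 * C), by linarith, ?_⟩
  intro t h a b ht1 hF ζ hζ
  have ht := hF.ht
  have hh1 := hF.h1
  have hh2 := hF.h2
  obtain ⟨hz1, hz2⟩ := hζ
  obtain ⟨s, hs⟩ : ∃ s, s = Real.sqrt t := ⟨_, rfl⟩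
  have hs0 : 0 < s := by rw [hs]; exact Real.sqrt_pos.2 ht
  have hss : s * s = t := by rw [hs]; exact Real.mul_self_sqrt ht.le
  have hs1 : s < 1 / 10 := by
    by_contra hcon
    have hcon' : 1 / 10 ≤ s := not_lt.1 hcon
    have : 1 / 10 * (1 / 10) ≤ s * s := mul_le_mul hcon' hcon' (by norm_num) hs0.le
    linarith
  have hts : t ≤ s / 10 := by
    rw [← hss]
    calc s * s ≤ s * (1 / 10) := mul_le_mul_of_nonneg_left hs1.le hs0.le
      _ = s / 10 := by ring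
  have hts' : t ≤ s := by linarith
  have hzm : 15 / 2 ≤ ‖ζ - 1‖ := by
    have h1 : ‖ζ‖ ≤ ‖ζ - 1‖ + ‖(1 : ℂ)‖ := by
      calc ‖ζ‖ = ‖(ζ - 1) + 1‖ := by rw [sub_add_cancel]
        _ ≤ ‖ζ - 1‖ + ‖(1 : ℂ)‖ := norm_add_le _ _
    rw [norm_one] at h1
    linarith
  have hzp : 15 / 2 ≤ ‖ζ + 1‖ := by
    have h1 : ‖ζ‖ ≤ ‖ζ + 1‖ + ‖(1 : ℂ)‖ := by
      calc ‖ζ‖ = ‖(ζ + 1) - 1‖ := by rw [add_sub_cancel_right]
        _ ≤ ‖ζ + 1‖ + ‖(1 : ℂ)‖ := norm_sub_le _ _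
    rw [norm_one] at h1
    linarith
  have hG : ζ ∈ Gc t := ⟨by linarith, by linarith, by linarith⟩
  have hea := hF.est_a ζ hG
  have heb := hF.est_b ζ hG
  obtain ⟨b1, hb1⟩ : ∃ b1 : ℂ, b1 = (t / (ζ - 1) + t / (ζ + 1) - (t * h / 2 : ℝ) * cj ζ) :=
    ⟨_, rfl⟩
  rw [← hb1, ← hs] at heb
  have hmne : ζ - 1 ≠ 0 := by
    intro h0
    rw [h0, norm_zero] at hzm
    linarith
  have hpne : ζ + 1 ≠ 0 := by
    intro h0
    rw [h0, norm_zero] at hzp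
    linarith
  have htc : (t : ℂ) ≠ 0 := by exact_mod_cast ht.ne'
  have htn : ‖(t : ℂ)‖ = t := by
    rw [Complex.norm_real, Real.norm_eq_abs, abs_of_pos ht]
  have hdm : t / ‖ζ - 1‖ ≤ t * (2 / 15) := by
    rw [div_le_iff₀ (by linarith)]
    have : t * (15 / 2) ≤ t * ‖ζ - 1‖ := mul_le_mul_of_nonneg_left hzm ht.le
    linarith
  have hdp : t / ‖ζ + 1‖ ≤ t * (2 / 15) := by
    rw [div_le_iff₀ (by linarith)]
    have : t * (15 / 2) ≤ t * ‖ζ + 1‖ := mul_le_mul_of_nonneg_left hzp ht.le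
    linarith
  have hb1n : ‖b1‖ ≤ 12 * t := by
    rw [hb1]
    have e1 : ‖(t : ℂ) / (ζ - 1)‖ ≤ t * (2 / 15) := by rw [norm_div, htn]; exact hdm
    have e2 : ‖(t : ℂ) / (ζ + 1)‖ ≤ t * (2 / 15) := by rw [norm_div, htn]; exact hdp
    have e3 : ‖((t * h / 2 : ℝ) : ℂ) * cj ζ‖ ≤ t * (23 / 2) := by
      rw [norm_mul, Complex.norm_real, Real.norm_eq_abs, abs_of_pos (by positivity)]
      rw [RCLike.norm_conj]
      have e4 : t * h / 2 ≤ t := by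
        have : t * h ≤ t * 2 := mul_le_mul_of_nonneg_left hh2 ht.le
        linarith
      exact mul_le_mul e4 hz2.le (norm_nonneg _) ht.le
    have e5 := norm_sub_le ((t : ℂ) / (ζ - 1) + (t : ℂ) / (ζ + 1)) (((t * h / 2 : ℝ) : ℂ) * cj ζ)
    have e6 := norm_add_le ((t : ℂ) / (ζ - 1)) ((t : ℂ) / (ζ + 1))
    linarith
  have hCt : 0 ≤ C * t := by positivity
  have hbb : ‖b ζ - b1‖ ≤ 2 * C * t * s := by
    refine heb.trans ?_
    calc C * t * (s + t / ‖ζ - 1‖ + t / ‖ζ + 1‖) ≤ C * t * (2 * s) :=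
          mul_le_mul_of_nonneg_left (by linarith) hCt
      _ = 2 * C * t * s := by ring
  have hbn : ‖b ζ‖ ≤ E * t := by
    have e1 : ‖b ζ‖ ≤ ‖b ζ - b1‖ + ‖b1‖ := by
      calc ‖b ζ‖ = ‖(b ζ - b1) + b1‖ := by rw [sub_add_cancel]
        _ ≤ ‖b ζ - b1‖ + ‖b1‖ := norm_add_le _ _
    have e2 : 2 * C * t * s ≤ 2 * C * t := by
      calc 2 * C * t * s ≤ 2 * C * t * 1 :=
            mul_le_mul_of_nonneg_left (by linarith) (by positivity)
        _ = 2 * C * t := by ring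
    rw [hE]
    calc ‖b ζ‖ ≤ 2 * C * t + 12 * t := by linarith
      _ = (12 + 2 * C) * t := by ring
  have ht1' : t ≤ 1 := by linarith
  have hEt : 0 ≤ E * t := by positivity
  -- the four estimates
  have f1 : ‖a ζ ^ 2 - 1‖ ≤ C * (2 + C) * s := by
    have e1 : a ζ ^ 2 - 1 = (a ζ - 1) * ((a ζ - 1) + 2) := by ring
    rw [e1, norm_mul]
    have e2 : ‖(a ζ - 1) + 2‖ ≤ C + 2 := by
      have h3 := norm_add_le (a ζ - 1) 2
      have h4 : ‖(2 : ℂ)‖ = 2 := by norm_num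
      have h5 : C * t ≤ C * 1 := mul_le_mul_of_nonneg_left ht1' hC
      linarith
    calc ‖a ζ - 1‖ * ‖(a ζ - 1) + 2‖ ≤ (C * s) * (C + 2) := by
          apply mul_le_mul _ e2 (norm_nonneg _) (by positivity)
          exact hea.trans (mul_le_mul_of_nonneg_left hts' hC)
      _ = C * (2 + C) * s := by ring
  have f3 : ‖cj (b ζ) ^ 2‖ ≤ E ^ 2 * s := by
    rw [norm_pow, RCLike.norm_conj]
    have e1 : ‖b ζ‖ ^ 2 ≤ (E * t) ^ 2 := pow_le_pow_left₀ (norm_nonneg _) hbn 2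
    have e2 : t * t ≤ s := by
      calc t * t ≤ t * 1 := mul_le_mul_of_nonneg_left ht1' ht.le
        _ ≤ s := by linarith
    calc ‖b ζ‖ ^ 2 ≤ (E * t) ^ 2 := e1
      _ = E ^ 2 * (t * t) := by ring
      _ ≤ E ^ 2 * s := mul_le_mul_of_nonneg_left e2 q2
  have f4 : ‖PP t a b ζ - P0 h ζ‖ ≤ 23 * (C * E + 2 * C) * s := by
    have e0 : ζ ^ 2 - 1 ≠ 0 := by
      have : ζ ^ 2 - 1 = (ζ - 1) * (ζ + 1) := by ring
      rw [this]
      exact mul_ne_zero hmne hpne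
    have e1 : P0 h ζ = 2 * ζ * b1 / t := by
      rw [hb1]
      unfold P0
      have e3 : ζ ^ 2 - 1 = (ζ - 1) * (ζ + 1) := by ring
      rw [e3]
      push_cast
      field_simp
      ring
    have e2 : PP t a b ζ - P0 h ζ = 2 * ζ / t * ((a ζ - 1) * b ζ + (b ζ - b1)) := by
      rw [e1]
      unfold PP
      ring
    rw [e2, norm_mul, norm_div, htn, norm_mul]
    have h2 : ‖(2 : ℂ)‖ = 2 := by norm_num
    rw [h2]
    have e3 : ‖(a ζ - 1) * b ζ + (b ζ - b1)‖ ≤ (C * E + 2 * C) * (t * s) := by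
      refine (norm_add_le _ _).trans ?_
      rw [norm_mul]
      have e4 : ‖a ζ - 1‖ * ‖b ζ‖ ≤ (C * t) * (E * t) :=
        mul_le_mul hea hbn (norm_nonneg _) hCt
      have e5 : (C * t) * (E * t) ≤ C * E * (t * s) := by
        calc (C * t) * (E * t) = C * E * (t * t) := by ring
          _ ≤ C * E * (t * s) := by
            apply mul_le_mul_of_nonneg_left _ (by positivity)
            exact mul_le_mul_of_nonneg_left hts' ht.le
      calc ‖a ζ - 1‖ * ‖b ζ‖ + ‖b ζ - b1‖ ≤ C * E * (t * s) + 2 * C * t * s := by linarith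
        _ = (C * E + 2 * C) * (t * s) := by ring
    calc 2 * ‖ζ‖ / t * ‖(a ζ - 1) * b ζ + (b ζ - b1)‖
        ≤ 23 / t * ((C * E + 2 * C) * (t * s)) := by
          apply mul_le_mul _ e3 (norm_nonneg _) (by positivity)
          apply div_le_div_of_nonneg_right _ ht.le
          linarith
      _ = 23 * (C * E + 2 * C) * s := by field_simp
  have fin : ∀ X Y Z : ℝ, 0 ≤ Z → X ≤ Y * Z →
      Y ≤ 1 + C * (2 + C) + E + E ^ 2 + 23 * (C * E + 2 * C) →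
      X ≤ (1 + C * (2 + C) + E + E ^ 2 + 23 * (C * E + 2 * C)) * Z := by
    intro X Y Z hZ h1 h2
    exact h1.trans (mul_le_mul_of_nonneg_right h2 hZ)
  rw [← hs]
  exact ⟨fin _ _ _ hs0.le f1 (by linarith), fin _ _ _ ht.le hbn (by linarith),
    fin _ _ _ hs0.le f3 (by linarith), fin _ _ _ hs0.le f4 (by linarith)⟩

end J_ann_val
export J_ann_val (ann_val)
end Pool.Agent.Helper785.TL5
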