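import Pool.Agent.Helper785.TL5.Defs

set_option autoImplicit false
open Set Metric Pool.Agent.Helper676.TL Pool.Agent.Helper785.TL
open scoped ContDiff

namespace Pool.Agent.Helper785.TL5
namespace J_convex10

/-- the functional `z ↦ v.im * z.re - v.re * z.im`. -/
noncomputable def G2L (v : ℂ) : ℂ →L[ℝ] ℝ := v.im • Complex.reCLM - v.re • Complex.imCLM

theorem G2L_apply (v z : ℂ) : G2L v z = v.im * z.re - v.re * z.im := by
  simp [G2L]

theorem G2_second_order (f f' f'' : ℝ → ℝ) (t : ℝ) (h1 : ∀ x, HasDerivAt f (f' x) x)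
    (h2 : ∀ x, HasDerivAt f' (f'' x) x) (h3 : ∀ x, f'' x ≤ 0) (h4 : f t = 0) (h5 : f' t = 0)
    (u : ℝ) : f u ≤ 0 := by
  have ha : Antitone f' := by
    apply antitone_of_deriv_nonpos (fun x => (h2 x).differentiableAt)
    intro x
    rw [(h2 x).deriv]
    exact h3 x
  rcases le_total t u with htu | htu
  · have hA : AntitoneOn f (Ici t) := by
      apply antitoneOn_of_deriv_nonpos (convex_Ici t)
        (fun x _ => (h1 x).continuousAt.continuousWithinAt)
        (fun x _ => (h1 x).differentiableAt.differentiableWithinAt)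
      intro x hx
      rw [interior_Ici] at hx
      rw [(h1 x).deriv]
      have := ha (le_of_lt (mem_Ioi.1 hx))
      linarith
    have := hA (mem_Ici.2 le_rfl) (mem_Ici.2 htu) htu
    linarith
  · have hA : MonotoneOn f (Iic t) := by
      apply monotoneOn_of_deriv_nonneg (convex_Iic t)
        (fun x _ => (h1 x).continuousAt.continuousWithinAt)
        (fun x _ => (h1 x).differentiableAt.differentiableWithinAt)
      intro x hx
      rw [interior_Iic] at hx
      rw [(h1 x).deriv]
      have := ha (le_of_lt (mem_Iio.1 hx))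
      linarith
    have := hA (mem_Iic.2 htu) (mem_Iic.2 le_rfl) htu
    linarith

theorem G2_clm_apply (f : ℂ →L[ℝ] ℝ) (z : ℂ) : f z = z.re * f 1 + z.im * f Complex.I := by
  have : z = z.re • (1 : ℂ) + z.im • Complex.I := by
    apply Complex.ext <;> simp
  conv_lhs => rw [this]
  rw [map_add, map_smul, map_smul, smul_eq_mul, smul_eq_mul]






theorem convex10 (γ : ℝ → ℂ) (hγ : ContDiff ℝ 2 γ)
    (hper : ∀ θ, γ (θ + 2 * Real.pi) = γ θ)
    (h1 : ∀ θ : ℝ, ‖deriv γ θ - 10 * Complex.I * Complex.exp (θ * Complex.I)‖ ≤ 1 / 5)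
    (h2 : ∀ θ : ℝ, ‖deriv (deriv γ) θ + 10 * Complex.exp (θ * Complex.I)‖ ≤ 1 / 5) :
    ∃ K : Set ℂ, Convex ℝ K ∧ IsCompact K ∧ (interior K).Nonempty ∧ frontier K = range γ := by
  have hper' : Function.Periodic γ (2 * Real.pi) := hper
  have hpi : 0 < 2 * Real.pi := by positivity
  have hcont : Continuous γ := hγ.continuous
  have hdiff : Differentiable ℝ γ := hγ.differentiable (by norm_num)
  have hC1 : ContDiff ℝ 1 (deriv γ) := by
    have := ContDiff.iterate_deriv' 1 1 (f := γ) (𝕜 := ℝ) (by exact_mod_cast hγ)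
    simpa using this
  have hdiff1 : Differentiable ℝ (deriv γ) := hC1.differentiable (by norm_num)
  have hd1 : ∀ x, HasDerivAt γ (deriv γ x) x := fun x => (hdiff x).hasDerivAt
  have hd2 : ∀ x, HasDerivAt (deriv γ) (deriv (deriv γ) x) x := fun x => (hdiff1 x).hasDerivAt
  -- coordinates
  have e1 : ∀ θ : ℝ, (Complex.exp (θ * Complex.I)).re = Real.cos θ := by
    intro θ; exact Complex.exp_ofReal_mul_I_re θ
  have e2 : ∀ θ : ℝ, (Complex.exp (θ * Complex.I)).im = Real.sin θ := by
    intro θ; exact Complex.exp_ofReal_mul_I_im θ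
  have hre1 : ∀ θ, |(deriv γ θ).re + 10 * Real.sin θ| ≤ 1 / 5 := by
    intro θ
    have := (Complex.abs_re_le_norm _).trans (h1 θ)
    have h : (deriv γ θ - 10 * Complex.I * Complex.exp (θ * Complex.I)).re
        = (deriv γ θ).re + 10 * Real.sin θ := by
      simp only [Complex.sub_re, Complex.mul_re, Complex.I_re, Complex.I_im, Complex.mul_im, e1, e2]
      norm_num
    rwa [h] at this
  have him1 : ∀ θ, |(deriv γ θ).im - 10 * Real.cos θ| ≤ 1 / 5 := by
    intro θ
    have := (Complex.abs_im_le_norm _).trans (h1 θ)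
    have h : (deriv γ θ - 10 * Complex.I * Complex.exp (θ * Complex.I)).im
        = (deriv γ θ).im - 10 * Real.cos θ := by
      simp only [Complex.sub_im, Complex.mul_re, Complex.I_re, Complex.I_im, Complex.mul_im, e1, e2]
      norm_num
    rwa [h] at this
  have hre2 : ∀ θ, |(deriv (deriv γ) θ).re + 10 * Real.cos θ| ≤ 1 / 5 := by
    intro θ
    have := (Complex.abs_re_le_norm _).trans (h2 θ)
    have h : (deriv (deriv γ) θ + 10 * Complex.exp (θ * Complex.I)).re
        = (deriv (deriv γ) θ).re + 10 * Real.cos θ := by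
      simp only [Complex.add_re, Complex.mul_re, e1, e2]
      norm_num
    rwa [h] at this
  have him2 : ∀ θ, |(deriv (deriv γ) θ).im + 10 * Real.sin θ| ≤ 1 / 5 := by
    intro θ
    have := (Complex.abs_im_le_norm _).trans (h2 θ)
    have h : (deriv (deriv γ) θ + 10 * Complex.exp (θ * Complex.I)).im
        = (deriv (deriv γ) θ).im + 10 * Real.sin θ := by
      simp only [Complex.add_im, Complex.mul_im, e1, e2]
      norm_num
    rwa [h] at this
  -- nonvanishing of the velocity
  have hvne : ∀ t, 0 < (deriv γ t).re ^ 2 + (deriv γ t).im ^ 2 := by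
    intro t
    by_contra hcon
    have hr : (deriv γ t).re = 0 := by nlinarith [sq_nonneg (deriv γ t).re, sq_nonneg (deriv γ t).im]
    have hi : (deriv γ t).im = 0 := by nlinarith [sq_nonneg (deriv γ t).re, sq_nonneg (deriv γ t).im]
    have a1 := abs_le.1 (hre1 t)
    have a2 := abs_le.1 (him1 t)
    rw [hr] at a1
    rw [hi] at a2
    have := Real.sin_sq_add_cos_sq t
    nlinarith [a1.1, a1.2, a2.1, a2.2]
  -- speed bound
  have hspeed : ∀ t, ‖deriv γ t‖ ≤ 11 := by
    intro t
    have k1 : ‖(10 : ℂ) * Complex.I * Complex.exp (t * Complex.I)‖ = 10 := by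
      rw [norm_mul, norm_mul, Complex.norm_I, Complex.norm_exp_ofReal_mul_I]
      norm_num
    have k2 : deriv γ t = (deriv γ t - 10 * Complex.I * Complex.exp (t * Complex.I))
        + 10 * Complex.I * Complex.exp (t * Complex.I) := by ring
    rw [k2]
    refine (norm_add_le _ _).trans ?_
    rw [k1]
    have := h1 t
    linarith
  -- curvature estimate
  have hcurv : ∀ t u, G2L (deriv γ t) (deriv (deriv γ) u) ≤ -100 * Real.cos (u - t) + 9 := by
    intro t u
    rw [G2L_apply]
    obtain ⟨a, ha⟩ : ∃ a, a = (deriv γ t).im - 10 * Real.cos t := ⟨_, rfl⟩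
    obtain ⟨b, hb⟩ : ∃ b, b = (deriv γ t).re + 10 * Real.sin t := ⟨_, rfl⟩
    obtain ⟨c, hc⟩ : ∃ c, c = (deriv (deriv γ) u).re + 10 * Real.cos u := ⟨_, rfl⟩
    obtain ⟨d, hd⟩ : ∃ d, d = (deriv (deriv γ) u).im + 10 * Real.sin u := ⟨_, rfl⟩
    have Ha := him1 t
    have Hb := hre1 t
    have Hc := hre2 u
    have Hd := him2 u
    rw [← ha] at Ha
    rw [← hb] at Hb
    rw [← hc] at Hc
    rw [← hd] at Hd
    have ha' : (deriv γ t).im = a + 10 * Real.cos t := by linarith
    have hb' : (deriv γ t).re = b - 10 * Real.sin t := by linarith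
    have hc' : (deriv (deriv γ) u).re = c - 10 * Real.cos u := by linarith
    have hd' : (deriv (deriv γ) u).im = d - 10 * Real.sin u := by linarith
    rw [ha', hb', hc', hd', Real.cos_sub]
    have key : ∀ x y : ℝ, |x| ≤ 1 → |y| ≤ 1 / 5 → x * y ≤ 1 / 5 := by
      intro x y hx hy
      calc x * y ≤ |x * y| := le_abs_self _
        _ = |x| * |y| := abs_mul _ _
        _ ≤ 1 * (1 / 5) := by gcongr
        _ = 1 / 5 := by norm_num
    have k1 := key (Real.cos t) c (Real.abs_cos_le_one t) Hc
    have k2 := key (-Real.cos u) a (by rw [abs_neg]; exact Real.abs_cos_le_one u) Ha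
    have k3 := key (Real.sin t) d (Real.abs_sin_le_one t) Hd
    have k4 := key (Real.sin u) b (Real.abs_sin_le_one u) Hb
    have k5 := key a c (Ha.trans (by norm_num)) Hc
    have k6 := key (-b) d (by rw [abs_neg]; exact Hb.trans (by norm_num)) Hd
    have e : (a + 10 * Real.cos t) * (c - 10 * Real.cos u)
        - (b - 10 * Real.sin t) * (d - 10 * Real.sin u)
        = -100 * (Real.cos u * Real.cos t + Real.sin u * Real.sin t)
          + 10 * (Real.cos t * c) + 10 * (-Real.cos u * a) + 10 * (Real.sin t * d)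
          + 10 * (Real.sin u * b) + a * c + (-b) * d := by ring
    rw [e]
    linarith
  -- local strict support inequality
  have hloc : ∀ t u, |u - t| ≤ Real.pi →
      G2L (deriv γ t) (γ u - γ t) ≤ - 15 * (u - t) ^ 2 := by
    intro t u hu
    have h := G2_second_order
      (fun x => G2L (deriv γ t) (γ x) - G2L (deriv γ t) (γ t) + 100 * (1 - Real.cos (x - t))
        - (9 / 2) * (x - t) ^ 2)
      (fun x => G2L (deriv γ t) (deriv γ x) + 100 * Real.sin (x - t) - 9 * (x - t))
      (fun x => G2L (deriv γ t) (deriv (deriv γ) x) + 100 * Real.cos (x - t) - 9)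
      t ?_ ?_ ?_ ?_ ?_ u
    · have hc := Real.cos_le_one_sub_mul_cos_sq hu
      have hp : 2 / Real.pi ^ 2 ≥ 1 / 5 := by
        have : Real.pi ^ 2 ≤ 10 := by
          have := Real.pi_lt_d2
          have := Real.pi_pos
          nlinarith
        rw [ge_iff_le, div_le_div_iff₀ (by norm_num) (by positivity)]
        linarith
      have hq : (1 / 5) * (u - t) ^ 2 ≤ 2 / Real.pi ^ 2 * (u - t) ^ 2 := by
        apply mul_le_mul_of_nonneg_right hp (sq_nonneg _)
      rw [map_sub]
      nlinarith
    · intro x
      have k1 : HasDerivAt (fun x => G2L (deriv γ t) (γ x)) (G2L (deriv γ t) (deriv γ x)) x :=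
        (G2L (deriv γ t)).hasFDerivAt.comp_hasDerivAt x (hd1 x)
      have k2 : HasDerivAt (fun x => x - t) 1 x := (hasDerivAt_id x).sub_const t
      have k3 : HasDerivAt (fun x => Real.cos (x - t)) (-Real.sin (x - t) * 1) x := k2.cos
      have k4 : HasDerivAt (fun x => (x - t) ^ 2) (2 * (x - t) ^ 1 * 1) x := k2.pow 2
      have := ((k1.sub_const (G2L (deriv γ t) (γ t))).add ((k3.const_sub 1).const_mul 100)).sub
        (k4.const_mul (9 / 2))
      refine this.congr_deriv ?_
      ring
    · intro x
      have k1 : HasDerivAt (fun x => G2L (deriv γ t) (deriv γ x))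
          (G2L (deriv γ t) (deriv (deriv γ) x)) x :=
        (G2L (deriv γ t)).hasFDerivAt.comp_hasDerivAt x (hd2 x)
      have k2 : HasDerivAt (fun x => x - t) 1 x := (hasDerivAt_id x).sub_const t
      have k3 : HasDerivAt (fun x => Real.sin (x - t)) (Real.cos (x - t) * 1) x := k2.sin
      have := (k1.add (k3.const_mul 100)).sub (k2.const_mul 9)
      refine this.congr_deriv ?_
      ring
    · intro x
      have := hcurv t x
      linarith
    · simp
    · simp only [sub_self, Real.sin_zero, mul_zero, add_zero, sub_zero]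
      rw [G2L_apply]; ring
  have hlip : ∀ t u, ‖γ u - γ t‖ ≤ 11 * |u - t| := by
    intro t u
    have := Convex.norm_image_sub_le_of_norm_deriv_le (f := γ) (C := 11) (s := univ)
      (x := t) (y := u) (fun x _ => hdiff x) (fun x _ => hspeed x) convex_univ
      (mem_univ _) (mem_univ _)
    simpa [Real.norm_eq_abs] using this
  have hglob : ∀ t u, G2L (deriv γ t) (γ u - γ t) + (1 / 16) * ‖γ u - γ t‖ ^ 2 ≤ 0 := by
    intro t u
    obtain ⟨u', hu', hγu'⟩ : ∃ u', |u' - t| ≤ Real.pi ∧ γ u' = γ u := by
      refine ⟨u - (round ((u - t) / (2 * Real.pi)) : ℤ) * (2 * Real.pi), ?_, ?_⟩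
      · have h := abs_sub_round ((u - t) / (2 * Real.pi))
        have e : u - (round ((u - t) / (2 * Real.pi)) : ℤ) * (2 * Real.pi) - t
            = ((u - t) / (2 * Real.pi) - (round ((u - t) / (2 * Real.pi)) : ℤ))
              * (2 * Real.pi) := by
          field_simp
          ring
        rw [e, abs_mul, abs_of_pos hpi]
        nlinarith [Real.pi_pos]
      · exact hper'.sub_int_mul_eq _
    rw [← hγu']
    have a1 := hloc t u' hu'
    have a2 := hlip t u'
    have a4 := sq_nonneg (u' - t)
    have a3 : ‖γ u' - γ t‖ ^ 2 ≤ 121 * (u' - t) ^ 2 := by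
      have := pow_le_pow_left₀ (norm_nonneg _) a2 2
      rw [mul_pow, sq_abs] at this
      linarith
    linarith
  -- the convex body
  have hsub : range γ ⊆ closure (convexHull ℝ (range γ)) :=
    (subset_convexHull ℝ _).trans subset_closure
  have hKconv : Convex ℝ (closure (convexHull ℝ (range γ))) := (convex_convexHull ℝ _).closure
  have hrange : IsCompact (range γ) := hper'.compact_of_continuous hpi.ne' hcont
  have hKcomp : IsCompact (closure (convexHull ℝ (range γ))) := by
    apply Metric.isCompact_of_isClosed_isBounded isClosed_closure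
    exact (isBounded_convexHull.2 hrange.isBounded).closure
  have hM : ∀ t, ∀ y ∈ closure (convexHull ℝ (range γ)),
      G2L (deriv γ t) (y - γ t) + (1 / 16) * ‖y - γ t‖ ^ 2 ≤ 0 := by
    intro t
    have hcv : ConvexOn ℝ univ (fun y : ℂ => G2L (deriv γ t) (y - γ t)
        + (1 / 16) * ‖y - γ t‖ ^ 2) := by
      apply ConvexOn.add
      · have := (G2L (deriv γ t)).toLinearMap.convexOn (convex_univ)
        have h2 := this.add_const (-(G2L (deriv γ t) (γ t)))
        refine h2.congr ?_
        intro y _
        simp [sub_eq_add_neg]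
      · have := ((convexOn_univ_dist (γ t)).pow (fun x _ => dist_nonneg) 2).smul
          (show (0:ℝ) ≤ 1 / 16 by norm_num)
        refine this.congr ?_
        intro y _
        simp [dist_eq_norm]
    have hset : Convex ℝ {y : ℂ | G2L (deriv γ t) (y - γ t)
        + (1 / 16) * ‖y - γ t‖ ^ 2 ≤ 0} := by
      have := hcv.convex_le 0
      simpa using this
    have hcl : IsClosed {y : ℂ | G2L (deriv γ t) (y - γ t)
        + (1 / 16) * ‖y - γ t‖ ^ 2 ≤ 0} := by
      apply isClosed_le _ continuous_const
      fun_prop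
    intro y hy
    have h1 : convexHull ℝ (range γ) ⊆ {y : ℂ | G2L (deriv γ t) (y - γ t)
        + (1 / 16) * ‖y - γ t‖ ^ 2 ≤ 0} := by
      apply convexHull_min _ hset
      rintro _ ⟨u, rfl⟩
      exact hglob t u
    exact closure_minimal h1 hcl hy
  have hint0 : (interior (convexHull ℝ (range γ))).Nonempty := by
    rw [interior_convexHull_nonempty_iff_affineSpan_eq_top]
    by_contra hne
    have hdir : vectorSpan ℝ (range γ) ≠ ⊤ := by
      intro h
      apply hne
      rw [← AffineSubspace.direction_eq_top_iff_of_nonempty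
        ((affineSpan_nonempty ℝ).2 (range_nonempty γ)), direction_affineSpan]
      exact h
    obtain ⟨f, hf0, hf⟩ := Submodule.exists_le_ker_of_lt_top _ (lt_top_iff_ne_top.2 hdir)
    have hfγ : ∀ u, f (γ u) = f (γ 0) := by
      intro u
      have := hf (vsub_mem_vectorSpan ℝ (mem_range_self u) (mem_range_self (0 : ℝ)))
      rw [LinearMap.mem_ker, vsub_eq_sub, map_sub, sub_eq_zero] at this
      exact this
    have hfd : ∀ u, f (deriv γ u) = 0 := by
      intro u
      have k1 : HasDerivAt (fun x => (LinearMap.toContinuousLinearMap f) (γ x))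
          ((LinearMap.toContinuousLinearMap f) (deriv γ u)) u :=
        (LinearMap.toContinuousLinearMap f).hasFDerivAt.comp_hasDerivAt u (hd1 u)
      have k2 : (fun x => (LinearMap.toContinuousLinearMap f) (γ x)) = fun _ => f (γ 0) := by
        funext x
        exact hfγ x
      rw [k2] at k1
      have := k1.unique (hasDerivAt_const u (f (γ 0)))
      exact this
    have hfa : ∀ z, f z = z.re * f 1 + z.im * f Complex.I :=
      fun z => G2_clm_apply (LinearMap.toContinuousLinearMap f) z
    have q1 := hfd 0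
    have q2 := hfd (Real.pi / 2)
    rw [hfa] at q1 q2
    have a1 := abs_le.1 (hre1 0)
    have a2 := abs_le.1 (him1 0)
    have a3 := abs_le.1 (hre1 (Real.pi / 2))
    have a4 := abs_le.1 (him1 (Real.pi / 2))
    simp only [Real.sin_zero, Real.cos_zero, Real.sin_pi_div_two, Real.cos_pi_div_two] at a1 a2 a3 a4
    generalize (deriv γ 0).re = p at *
    generalize (deriv γ 0).im = q at *
    generalize (deriv γ (Real.pi / 2)).re = r at *
    generalize (deriv γ (Real.pi / 2)).im = s at *
    have hdet : q * r - p * s < 0 := by nlinarith [a1.1, a1.2, a2.1, a2.2, a3.1, a3.2, a4.1, a4.2]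
    have z1 : (q * r - p * s) * f 1 = 0 := by linear_combination q * q2 - s * q1
    have z2 : (q * r - p * s) * f Complex.I = 0 := by linear_combination r * q1 - p * q2
    have w1 : f 1 = 0 := (mul_eq_zero.1 z1).resolve_left hdet.ne
    have w2 : f Complex.I = 0 := (mul_eq_zero.1 z2).resolve_left hdet.ne
    apply hf0
    apply LinearMap.ext
    intro z
    rw [hfa, w1, w2]
    simp
  have hint : (interior (closure (convexHull ℝ (range γ)))).Nonempty :=
    hint0.mono (interior_mono subset_closure)
  refine ⟨closure (convexHull ℝ (range γ)), hKconv, hKcomp, hint, ?_⟩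
  rw [isClosed_closure.frontier_eq]
  generalize hKdef : closure (convexHull ℝ (range γ)) = K at *
  apply Subset.antisymm
  · rintro x ⟨hxK, hxint⟩
    obtain ⟨f, hf⟩ := geometric_hahn_banach_open_point hKconv.interior isOpen_interior hxint
    have hfK : ∀ y ∈ K, f y ≤ f x := by
      have h1 : closure (interior K) ⊆ {y | f y ≤ f x} := by
        apply closure_minimal _ (isClosed_le f.continuous continuous_const)
        intro y hy
        exact (hf y hy).le
      intro y hy
      apply h1
      rw [hKconv.closure_interior_eq_closure_of_nonempty_interior hint]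
      exact subset_closure hy
    obtain ⟨_, ⟨t, rfl⟩, ht⟩ := hrange.exists_isMaxOn (range_nonempty γ) f.continuous.continuousOn
    have hfu : ∀ u, f (γ u) ≤ f (γ t) := fun u => ht (mem_range_self u)
    have hfK2 : ∀ y ∈ K, f y ≤ f (γ t) := by
      intro y hy
      rw [← hKdef] at hy
      have h1 : convexHull ℝ (range γ) ⊆ {y | f y ≤ f (γ t)} := by
        apply convexHull_min
        · rintro _ ⟨u, rfl⟩
          exact hfu u
        · exact convex_halfSpace_le f.toLinearMap.isLinear _
      exact closure_minimal h1 (isClosed_le f.continuous continuous_const) hy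
    have heq : f x = f (γ t) := le_antisymm (hfK2 x hxK) (hfK _ (hsub (mem_range_self t)))
    have hfd : f (deriv γ t) = 0 := by
      have k1 : HasDerivAt (fun x => f (γ x)) (f (deriv γ t)) t :=
        f.hasFDerivAt.comp_hasDerivAt t (hd1 t)
      have k2 : IsLocalMax (fun x => f (γ x)) t := Filter.Eventually.of_forall hfu
      exact k2.hasDerivAt_eq_zero k1
    obtain ⟨a, ha⟩ := hint
    have hfa := hf a ha
    have hfz := G2_clm_apply f
    rw [hfz] at hfd
    have hv := hvne t
    have hx0 := hM t x hxK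
    have hz : f (x - γ t) = 0 := by rw [map_sub, heq, sub_self]
    have hG : G2L (deriv γ t) (x - γ t) = 0 := by
      rw [G2L_apply]
      rw [hfz] at hz
      generalize (x - γ t).re = zr at *
      generalize (x - γ t).im = zi at *
      by_contra hne
      have z1 : (zr * (deriv γ t).im - zi * (deriv γ t).re) * f 1 = 0 := by
        linear_combination (deriv γ t).im * hz - zi * hfd
      have z2 : (zr * (deriv γ t).im - zi * (deriv γ t).re) * f Complex.I = 0 := by
        linear_combination zr * hfd - (deriv γ t).re * hz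
      have hne' : zr * (deriv γ t).im - zi * (deriv γ t).re ≠ 0 := by
        intro h
        apply hne
        linarith
      have w1 : f 1 = 0 := (mul_eq_zero.1 z1).resolve_left hne'
      have w2 : f Complex.I = 0 := (mul_eq_zero.1 z2).resolve_left hne'
      rw [hfz a, hfz x, w1, w2] at hfa
      simp at hfa
    rw [hG, zero_add] at hx0
    have hn : ‖x - γ t‖ ^ 2 = 0 := le_antisymm (by linarith) (sq_nonneg _)
    have hn2 : x - γ t = 0 := by
      rw [← norm_eq_zero]
      exact pow_eq_zero_iff (two_ne_zero) |>.1 hn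
    exact ⟨t, (sub_eq_zero.1 hn2).symm⟩
  · rintro _ ⟨t, rfl⟩
    refine ⟨hsub (mem_range_self t), ?_⟩
    intro hmem
    rw [mem_interior_iff_mem_nhds] at hmem
    have hcontL : ContinuousAt (fun s : ℝ => γ t + (s : ℂ) *
        (⟨(deriv γ t).im, -(deriv γ t).re⟩ : ℂ)) 0 := by fun_prop
    have hmem' : K ∈ nhds ((fun s : ℝ => γ t + (s : ℂ) *
        (⟨(deriv γ t).im, -(deriv γ t).re⟩ : ℂ)) 0) := by simpa using hmem
    have hev := hcontL hmem'
    rw [Filter.mem_map, Metric.mem_nhds_iff] at hev
    obtain ⟨ε, hε, hball⟩ := hev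
    have hs : (ε / 2) ∈ ball (0 : ℝ) ε := by
      rw [mem_ball, dist_zero_right, Real.norm_eq_abs, abs_of_pos (by linarith)]
      linarith
    have hk := hM t _ (hball hs)
    rw [G2L_apply] at hk
    simp only [add_sub_cancel_left, Complex.mul_re, Complex.mul_im, Complex.ofReal_re,
      Complex.ofReal_im] at hk
    have hv := hvne t
    have hnn : 0 ≤ ‖((ε / 2 : ℝ) : ℂ) * (⟨(deriv γ t).im, -(deriv γ t).re⟩ : ℂ)‖ ^ 2 :=
      sq_nonneg _
    have hpos : 0 < (ε / 2) * ((deriv γ t).re ^ 2 + (deriv γ t).im ^ 2) := by positivity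
    nlinarith

end J_convex10
export J_convex10 (convex10)
end Pool.Agent.Helper785.TL5
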