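import Pool.Agent.Helper785.TL5.Defs

set_option autoImplicit false
open Set Metric Pool.Agent.Helper676.TL Pool.Agent.Helper785.TL
open scoped ContDiff

namespace Pool.Agent.Helper785.TL5
namespace J_gam_bounds


theorem gam_bounds_exp (s : ℝ) :
    HasDerivAt (fun s : ℝ => Complex.exp (s * Complex.I)) (Complex.exp (s * Complex.I) * Complex.I) s := by
  have h1 : HasDerivAt (fun s : ℝ => ((s : ℂ) * Complex.I)) (Complex.I) s := by
    have h2 := (Complex.ofRealCLM.hasDerivAt (x := s)).mul_const Complex.I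
    simpa using h2
  exact h1.cexp

/-- the first derivative -/
noncomputable def gam_bounds_w1 (r : ℝ → ℝ) (s : ℝ) : ℂ :=
  (((deriv r s : ℝ) : ℂ) + (r s : ℂ) * Complex.I) * Complex.exp (s * Complex.I)

/-- the second derivative -/
noncomputable def gam_bounds_w2 (r : ℝ → ℝ) (s : ℝ) : ℂ :=
  (((deriv (deriv r) s : ℝ) : ℂ) + 2 * Complex.I * ((deriv r s : ℝ) : ℂ) - (r s : ℂ)) * Complex.exp (s * Complex.I)

theorem gam_bounds_d1 (r : ℝ → ℝ) (hr : ContDiff ℝ ∞ r) (s : ℝ) :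
    HasDerivAt (pol r) (gam_bounds_w1 r s) s := by
  have h1 : HasDerivAt r (deriv r s) s :=
    (hr.differentiable (by norm_num)).differentiableAt.hasDerivAt
  have h2 := h1.ofReal_comp.mul (gam_bounds_exp s)
  have h3 : ((deriv r s : ℝ) : ℂ) * Complex.exp (s * Complex.I) +
      (r s : ℂ) * (Complex.exp (s * Complex.I) * Complex.I) = gam_bounds_w1 r s := by
    unfold gam_bounds_w1
    ring
  rw [h3] at h2
  exact h2

theorem gam_bounds_d2 (r : ℝ → ℝ) (hr : ContDiff ℝ ∞ r) (s : ℝ) :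
    HasDerivAt (gam_bounds_w1 r) (gam_bounds_w2 r s) s := by
  have h1 : HasDerivAt r (deriv r s) s :=
    (hr.differentiable (by norm_num)).differentiableAt.hasDerivAt
  have hr' : ContDiff ℝ ∞ (deriv r) := by
    have := contDiff_infty_iff_deriv.1 hr
    exact this.2
  have h1' : HasDerivAt (deriv r) (deriv (deriv r) s) s :=
    (hr'.differentiable (by norm_num)).differentiableAt.hasDerivAt
  have h2 := (h1'.ofReal_comp.add (h1.ofReal_comp.mul_const Complex.I)).mul (gam_bounds_exp s)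
  have h3 : (((deriv (deriv r) s : ℝ) : ℂ) + ((deriv r s : ℝ) : ℂ) * Complex.I) * Complex.exp (s * Complex.I) +
      (((deriv r s : ℝ) : ℂ) + (r s : ℂ) * Complex.I) * (Complex.exp (s * Complex.I) * Complex.I) =
      gam_bounds_w2 r s := by
    unfold gam_bounds_w2
    linear_combination (r s : ℂ) * Complex.exp (s * Complex.I) * Complex.I_sq
  rw [← h3]
  exact h2

theorem gam_bounds_e (s : ℝ) : ‖Complex.exp (s * Complex.I)‖ = 1 :=
  Complex.norm_exp_ofReal_mul_I s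

theorem gam_bounds_mem (r : ℝ → ℝ) (hr1 : ∀ θ, r θ ∈ Ioo (19 / 2 : ℝ) (21 / 2)) (s : ℝ) :
    pol r s ∈ An := by
  have h1 : ‖pol r s‖ = r s := by
    unfold pol
    rw [norm_mul, gam_bounds_e, mul_one, Complex.norm_real, Real.norm_eq_abs, abs_of_pos]
    linarith [(hr1 s).1]
  constructor
  · rw [h1]
    linarith [(hr1 s).1]
  · rw [h1]
    linarith [(hr1 s).2]




theorem gam_bounds (A B f : ℂ → ℂ) (r : ℝ → ℝ) (hr : ContDiff ℝ ∞ r)
    (hr1 : ∀ θ, r θ ∈ Ioo (19 / 2 : ℝ) (21 / 2))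
    (hb : ∀ θ, |deriv r θ| ≤ 12 / 1000 ∧ |r θ - 10| ≤ 38 / 1000 ∧
      |deriv (deriv r) θ| ≤ 65 / 1000)
    (hf : ∀ ζ ∈ An, DifferentiableAt ℝ f ζ)
    (hf1 : ∀ ζ ∈ An, ∀ v, fderiv ℝ f ζ v = A ζ * v - B ζ * cj v)
    (hA : ∀ ζ ∈ An, DifferentiableAt ℝ A ζ) (hB : ∀ ζ ∈ An, DifferentiableAt ℝ B ζ)
    (hA0 : ∀ ζ ∈ An, ‖A ζ - 1‖ ≤ 1 / 10000) (hB0 : ∀ ζ ∈ An, ‖B ζ‖ ≤ 1 / 10000)
    (hA1 : ∀ ζ ∈ An, ‖fderiv ℝ A ζ‖ ≤ 1 / 10000)
    (hB1 : ∀ ζ ∈ An, ‖fderiv ℝ B ζ‖ ≤ 1 / 10000) (θ : ℝ) :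
    ‖deriv (fun s => f (pol r s)) θ - 10 * Complex.I * Complex.exp (θ * Complex.I)‖ ≤ 1 / 5 ∧
    ‖deriv (deriv (fun s => f (pol r s))) θ + 10 * Complex.exp (θ * Complex.I)‖ ≤ 1 / 5 := by
  have hm := gam_bounds_mem r hr1
  have hd1 : ∀ s, HasDerivAt (fun s => f (pol r s))
      (A (pol r s) * gam_bounds_w1 r s - B (pol r s) * cj (gam_bounds_w1 r s)) s := by
    intro s
    have h1 := (hf _ (hm s)).hasFDerivAt.comp_hasDerivAt s (gam_bounds_d1 r hr s)
    rw [hf1 _ (hm s)] at h1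
    exact h1
  have hfun : deriv (fun s => f (pol r s)) = fun s =>
      A (pol r s) * gam_bounds_w1 r s - B (pol r s) * cj (gam_bounds_w1 r s) :=
    funext fun s => (hd1 s).deriv
  have hd2 : HasDerivAt (fun s =>
      A (pol r s) * gam_bounds_w1 r s - B (pol r s) * cj (gam_bounds_w1 r s))
      ((fderiv ℝ A (pol r θ) (gam_bounds_w1 r θ) * gam_bounds_w1 r θ +
        A (pol r θ) * gam_bounds_w2 r θ) -
      (fderiv ℝ B (pol r θ) (gam_bounds_w1 r θ) * cj (gam_bounds_w1 r θ) +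
        B (pol r θ) * cj (gam_bounds_w2 r θ))) θ := by
    have h1 := (hA _ (hm θ)).hasFDerivAt.comp_hasDerivAt θ (gam_bounds_d1 r hr θ)
    have h2 := (hB _ (hm θ)).hasFDerivAt.comp_hasDerivAt θ (gam_bounds_d1 r hr θ)
    have h3 := gam_bounds_d2 r hr θ
    have h4 : HasDerivAt (fun s => cj (gam_bounds_w1 r s)) (cj (gam_bounds_w2 r θ)) θ := by
      have h5 := Complex.conjCLE.toContinuousLinearMap.hasFDerivAt.comp_hasDerivAt θ h3
      exact h5
    exact (h1.mul h3).sub (h2.mul h4)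
  rw [hfun, hd2.deriv]
  obtain ⟨b1, b2, b3⟩ := hb θ
  obtain ⟨e, he⟩ : ∃ e, e = Complex.exp (θ * Complex.I) := ⟨_, rfl⟩
  have hen : ‖e‖ = 1 := by rw [he]; exact gam_bounds_e θ
  have hw1 : gam_bounds_w1 r θ = (((deriv r θ : ℝ) : ℂ) + (r θ : ℂ) * Complex.I) * e := by
    rw [he]; rfl
  have hw2 : gam_bounds_w2 r θ =
      (((deriv (deriv r) θ : ℝ) : ℂ) + 2 * Complex.I * ((deriv r θ : ℝ) : ℂ) - (r θ : ℂ)) * e := by
    rw [he]; rfl
  rw [← he]
  have n1 : ‖((deriv r θ : ℝ) : ℂ)‖ ≤ 12 / 1000 := by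
    rw [Complex.norm_real, Real.norm_eq_abs]; exact b1
  have n2 : ‖((r θ : ℂ) - 10)‖ ≤ 38 / 1000 := by
    have : ((r θ : ℂ) - 10) = ((r θ - 10 : ℝ) : ℂ) := by push_cast; ring
    rw [this, Complex.norm_real, Real.norm_eq_abs]; exact b2
  have n3 : ‖((deriv (deriv r) θ : ℝ) : ℂ)‖ ≤ 65 / 1000 := by
    rw [Complex.norm_real, Real.norm_eq_abs]; exact b3
  have d1 : ‖gam_bounds_w1 r θ - 10 * Complex.I * e‖ ≤ 50 / 1000 := by
    have : gam_bounds_w1 r θ - 10 * Complex.I * e =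
        (((deriv r θ : ℝ) : ℂ) + ((r θ : ℂ) - 10) * Complex.I) * e := by rw [hw1]; ring
    rw [this, norm_mul, hen, mul_one]
    refine (norm_add_le _ _).trans ?_
    rw [norm_mul, Complex.norm_I, mul_one]
    linarith
  have d2 : ‖gam_bounds_w2 r θ + 10 * e‖ ≤ 127 / 1000 := by
    have : gam_bounds_w2 r θ + 10 * e =
        (((deriv (deriv r) θ : ℝ) : ℂ) + 2 * Complex.I * ((deriv r θ : ℝ) : ℂ) - ((r θ : ℂ) - 10)) * e := by
      rw [hw2]; ring
    rw [this, norm_mul, hen, mul_one]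
    refine (norm_sub_le _ _).trans ?_
    have h6 : ‖((deriv (deriv r) θ : ℝ) : ℂ) + 2 * Complex.I * ((deriv r θ : ℝ) : ℂ)‖ ≤ 65 / 1000 + 24 / 1000 := by
      refine (norm_add_le _ _).trans ?_
      rw [norm_mul, norm_mul, Complex.norm_I, mul_one, Complex.norm_ofNat]
      linarith
    linarith
  have m1 : ‖gam_bounds_w1 r θ‖ ≤ 10050 / 1000 := by
    have h7 : gam_bounds_w1 r θ = (gam_bounds_w1 r θ - 10 * Complex.I * e) + 10 * Complex.I * e := by
      ring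
    rw [h7]
    refine (norm_add_le _ _).trans ?_
    have h8 : ‖10 * Complex.I * e‖ = 10 := by
      rw [norm_mul, norm_mul, Complex.norm_I, hen, mul_one, mul_one, Complex.norm_ofNat]
    rw [h8]
    linarith
  have m2 : ‖gam_bounds_w2 r θ‖ ≤ 10127 / 1000 := by
    have h7 : gam_bounds_w2 r θ = (gam_bounds_w2 r θ + 10 * e) - 10 * e := by
      ring
    rw [h7]
    refine (norm_sub_le _ _).trans ?_
    have h8 : ‖10 * e‖ = 10 := by
      rw [norm_mul, hen, mul_one, Complex.norm_ofNat]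
    rw [h8]
    linarith
  have c1 : ‖cj (gam_bounds_w1 r θ)‖ ≤ 10050 / 1000 := by
    rw [RCLike.norm_conj]; exact m1
  have c2 : ‖cj (gam_bounds_w2 r θ)‖ ≤ 10127 / 1000 := by
    rw [RCLike.norm_conj]; exact m2
  have a0 := hA0 _ (hm θ)
  have b0 := hB0 _ (hm θ)
  have a1 := hA1 _ (hm θ)
  have b1' := hB1 _ (hm θ)
  have key : ∀ (x y : ℂ) (c d : ℝ), ‖x‖ ≤ c → ‖y‖ ≤ d → ‖x * y‖ ≤ c * d := by
    intro x y c d hx hy
    rw [norm_mul]
    exact mul_le_mul hx hy (norm_nonneg _) ((norm_nonneg _).trans hx)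
  have keyD : ∀ (L : ℂ →L[ℝ] ℂ) (y : ℂ) (c d : ℝ), ‖L‖ ≤ c → ‖y‖ ≤ d → ‖L y‖ ≤ c * d := by
    intro L y c d hx hy
    exact (L.le_opNorm y).trans (mul_le_mul hx hy (norm_nonneg _) ((norm_nonneg _).trans hx))
  constructor
  · have t1 := key _ _ _ _ a0 m1
    have t2 := key _ _ _ _ b0 c1
    show ‖A (pol r θ) * gam_bounds_w1 r θ - B (pol r θ) * cj (gam_bounds_w1 r θ) -
      10 * Complex.I * e‖ ≤ 1 / 5
    have : A (pol r θ) * gam_bounds_w1 r θ - B (pol r θ) * cj (gam_bounds_w1 r θ) -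
      10 * Complex.I * e = (A (pol r θ) - 1) * gam_bounds_w1 r θ +
        (gam_bounds_w1 r θ - 10 * Complex.I * e) - B (pol r θ) * cj (gam_bounds_w1 r θ) := by ring
    rw [this]
    refine (norm_sub_le _ _).trans ?_
    have t3 := norm_add_le ((A (pol r θ) - 1) * gam_bounds_w1 r θ)
      (gam_bounds_w1 r θ - 10 * Complex.I * e)
    linarith
  · have t1 := key _ _ _ _ (keyD _ _ _ _ a1 m1) m1
    have t2 := key _ _ _ _ a0 m2
    have t3 := key _ _ _ _ (keyD _ _ _ _ b1' m1) c1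
    have t4 := key _ _ _ _ b0 c2
    have : (fderiv ℝ A (pol r θ) (gam_bounds_w1 r θ) * gam_bounds_w1 r θ +
        A (pol r θ) * gam_bounds_w2 r θ) -
      (fderiv ℝ B (pol r θ) (gam_bounds_w1 r θ) * cj (gam_bounds_w1 r θ) +
        B (pol r θ) * cj (gam_bounds_w2 r θ)) + 10 * e =
        (fderiv ℝ A (pol r θ) (gam_bounds_w1 r θ) * gam_bounds_w1 r θ +
        (A (pol r θ) - 1) * gam_bounds_w2 r θ) + (gam_bounds_w2 r θ + 10 * e) -
      (fderiv ℝ B (pol r θ) (gam_bounds_w1 r θ) * cj (gam_bounds_w1 r θ) +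
        B (pol r θ) * cj (gam_bounds_w2 r θ)) := by ring
    rw [this]
    refine (norm_sub_le _ _).trans ?_
    have t5 := norm_add_le (fderiv ℝ A (pol r θ) (gam_bounds_w1 r θ) * gam_bounds_w1 r θ +
        (A (pol r θ) - 1) * gam_bounds_w2 r θ) (gam_bounds_w2 r θ + 10 * e)
    have t6 := norm_add_le (fderiv ℝ A (pol r θ) (gam_bounds_w1 r θ) * gam_bounds_w1 r θ)
        ((A (pol r θ) - 1) * gam_bounds_w2 r θ)
    have t7 := norm_add_le (fderiv ℝ B (pol r θ) (gam_bounds_w1 r θ) * cj (gam_bounds_w1 r θ))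
        (B (pol r θ) * cj (gam_bounds_w2 r θ))
    linarith

end J_gam_bounds
export J_gam_bounds (gam_bounds)
end Pool.Agent.Helper785.TL5
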