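import Pool.Agent.Helper785.TL5.Defs

set_option autoImplicit false
open Set Metric Pool.Agent.Helper676.TL Pool.Agent.Helper785.TL
open scoped ContDiff

namespace Pool.Agent.Helper785.TL5
namespace J_P0_val




theorem P0_val_aux (ζ : ℂ) (c : ℝ) (hc : 0 ≤ c) (hr : 4 ≤ c * (‖ζ‖ ^ 2 - 1)) (h1 : 1 < ‖ζ‖ ^ 2) :
    ‖(4 : ℂ) / (ζ ^ 2 - 1)‖ ≤ c := by
  have h2 : ‖ζ‖ ^ 2 - 1 ≤ ‖ζ ^ 2 - 1‖ := by
    have := norm_sub_norm_le (ζ ^ 2) (1 : ℂ)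
    rwa [norm_pow, norm_one] at this
  have h3 : 0 < ‖ζ ^ 2 - 1‖ := by linarith
  rw [norm_div, div_le_iff₀ h3]
  have h4 : ‖(4 : ℂ)‖ = 4 := by norm_num
  rw [h4]
  have := mul_le_mul_of_nonneg_left h2 hc
  linarith

theorem P0_val_re_im (h : ℝ) (ζ : ℂ) :
    (P0 h ζ).re = 4 + ((4 : ℂ) / (ζ ^ 2 - 1)).re - h * ‖ζ‖ ^ 2 ∧
      (P0 h ζ).im = ((4 : ℂ) / (ζ ^ 2 - 1)).im := by
  have h1 : ζ * cj ζ = ((‖ζ‖ ^ 2 : ℝ) : ℂ) := by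
    rw [Complex.mul_conj, Complex.normSq_eq_norm_sq]
  have h2 : (h : ℂ) * (ζ * cj ζ) = ((h * ‖ζ‖ ^ 2 : ℝ) : ℂ) := by
    rw [h1]; push_cast; ring
  unfold P0
  rw [h2]
  constructor
  · rw [Complex.sub_re, Complex.add_re, Complex.ofReal_re]
    norm_num
  · rw [Complex.sub_im, Complex.add_im, Complex.ofReal_im]
    norm_num

theorem P0_val (h : ℝ) (hh : 1 / 2 ≤ h) (ζ : ℂ) (hζ : ζ ∈ An) :
    (P0 h ζ).re ≤ 4 + 57 / 1000 - h * ‖ζ‖ ^ 2 ∧ |(P0 h ζ).im| ≤ 57 / 1000 ∧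
      (19 / 2 ≤ ‖ζ‖ → (P0 h ζ).re ≤ 4 + 45 / 1000 - h * ‖ζ‖ ^ 2 ∧ |(P0 h ζ).im| ≤ 45 / 1000) := by
  obtain ⟨e1, e2⟩ := P0_val_re_im h ζ
  obtain ⟨l1, l2⟩ := hζ
  rw [e1, e2]
  refine ⟨?_, ?_, ?_⟩
  · have := P0_val_aux ζ (57 / 1000) (by norm_num) (by nlinarith) (by nlinarith)
    have h3 := (Complex.re_le_norm ((4 : ℂ) / (ζ ^ 2 - 1))).trans this
    linarith
  · have := P0_val_aux ζ (57 / 1000) (by norm_num) (by nlinarith) (by nlinarith)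
    exact (Complex.abs_im_le_norm _).trans this
  · intro l3
    have := P0_val_aux ζ (45 / 1000) (by norm_num) (by nlinarith) (by nlinarith)
    have h3 := (Complex.re_le_norm ((4 : ℂ) / (ζ ^ 2 - 1))).trans this
    exact ⟨by linarith, (Complex.abs_im_le_norm _).trans this⟩

end J_P0_val
export J_P0_val (P0_val)
end Pool.Agent.Helper785.TL5
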