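import Pool.Agent.Helper785.TL5.Defs
import Pool.Agent.Helper785.TL5.P_P0_val

set_option autoImplicit false
open Set Metric Pool.Agent.Helper676.TL Pool.Agent.Helper785.TL
open scoped ContDiff

namespace Pool.Agent.Helper785.TL5
namespace J_out_bounds








theorem ob_rad_deriv (z : ℂ → ℝ) (s : ℝ) (hz : DifferentiableAt ℝ z (s : ℂ)) :
    HasDerivAt (fun s : ℝ => z (s : ℂ)) (fderiv ℝ z (s : ℂ) 1) s := by
  have h1 : HasDerivAt (fun s : ℝ => (s : ℂ)) 1 s := Complex.ofRealCLM.hasDerivAt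
  exact hz.hasFDerivAt.comp_hasDerivAt s h1

theorem ob_ang_deriv (z : ℂ → ℝ) (ρ s : ℝ)
    (hz : DifferentiableAt ℝ z ((ρ : ℂ) * Complex.exp (s * Complex.I))) :
    HasDerivAt (fun s : ℝ => z ((ρ : ℂ) * Complex.exp (s * Complex.I)))
      (fderiv ℝ z ((ρ : ℂ) * Complex.exp (s * Complex.I))
        (Complex.I * ((ρ : ℂ) * Complex.exp (s * Complex.I)))) s := by
  have h0 : HasDerivAt (fun s : ℝ => (s : ℂ)) 1 s := Complex.ofRealCLM.hasDerivAt
  have h1 : HasDerivAt (fun s : ℝ => (s : ℂ) * Complex.I) (1 * Complex.I) s :=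
    h0.mul_const Complex.I
  have h2 : HasDerivAt (fun s : ℝ => Complex.exp (s * Complex.I))
      (Complex.exp (s * Complex.I) * (1 * Complex.I)) s := h1.cexp
  have h3 : HasDerivAt (fun s : ℝ => (ρ : ℂ) * Complex.exp (s * Complex.I))
      ((ρ : ℂ) * (Complex.exp (s * Complex.I) * (1 * Complex.I))) s := h2.const_mul _
  have h4 : (ρ : ℂ) * (Complex.exp (s * Complex.I) * (1 * Complex.I)) =
      Complex.I * ((ρ : ℂ) * Complex.exp (s * Complex.I)) := by ring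
  rw [h4] at h3
  exact hz.hasFDerivAt.comp_hasDerivAt s h3

theorem out_bounds (t h : ℝ) (P : ℂ → ℂ) (z : ℂ → ℝ) (ht : 0 < t) (hh : 1 / 2 ≤ h)
    (hz : ∀ ζ ∈ An, DifferentiableAt ℝ z ζ)
    (hr : ∀ ζ ∈ An, fderiv ℝ z ζ ζ = t * (P ζ).re)
    (ha : ∀ ζ ∈ An, fderiv ℝ z ζ (Complex.I * ζ) = -(t * (P ζ).im))
    (hP : ∀ ζ ∈ An, ‖P ζ - P0 h ζ‖ ≤ 1 / 10000) :
    (∀ ζ : ℂ, 9 ≤ ‖ζ‖ → ‖ζ‖ ≤ 19 / 2 → z 10 < z ζ) ∧
    (∀ ζ : ℂ, 21 / 2 ≤ ‖ζ‖ → ‖ζ‖ ≤ 11 → z ζ < z 10) ∧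
    (∀ ζ : ℂ, 9 ≤ ‖ζ‖ → ‖ζ‖ ≤ 11 → fderiv ℝ z ζ ζ < 0) := by
  have hAn : ∀ ζ : ℂ, 9 ≤ ‖ζ‖ → ‖ζ‖ ≤ 11 → ζ ∈ An := fun ζ h1 h2 =>
    ⟨by linarith, by linarith⟩
  have hre : ∀ ζ : ℂ, 9 ≤ ‖ζ‖ → ‖ζ‖ ≤ 11 → (P ζ).re ≤ 4 + 571 / 10000 - ‖ζ‖ ^ 2 / 2 := by
    intro ζ h1 h2
    have hA := hAn ζ h1 h2
    have h3 := (P0_val h hh ζ hA).1
    have h4 := (Complex.abs_re_le_norm (P ζ - P0 h ζ)).trans (hP ζ hA)
    rw [Complex.sub_re, abs_le] at h4
    nlinarith [sq_nonneg ‖ζ‖]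
  have him : ∀ ζ : ℂ, 9 ≤ ‖ζ‖ → ‖ζ‖ ≤ 11 → |(P ζ).im| ≤ 571 / 10000 := by
    intro ζ h1 h2
    have hA := hAn ζ h1 h2
    have h3 := (P0_val h hh ζ hA).2.1
    have h4 := (Complex.abs_im_le_norm (P ζ - P0 h ζ)).trans (hP ζ hA)
    rw [Complex.sub_im, abs_le] at h4
    rw [abs_le] at h3 ⊢
    constructor <;> linarith [h3.1, h3.2, h4.1, h4.2]
  -- radial
  have hnr : ∀ s : ℝ, 9 ≤ s → ‖(s : ℂ)‖ = s := by
    intro s hs
    rw [Complex.norm_real, Real.norm_eq_abs, abs_of_nonneg (by linarith)]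
  have hrad : ∀ x y : ℝ, 9 ≤ x → x ≤ y → y ≤ 11 →
      z (y : ℂ) - z (x : ℂ) ≤ (-(4 * t)) * (y - x) := by
    intro x y hx hxy hy
    have hd : ∀ s ∈ Icc (9:ℝ) 11, HasDerivAt (fun s : ℝ => z (s : ℂ)) (fderiv ℝ z (s : ℂ) 1) s := by
      intro s hs
      apply ob_rad_deriv
      apply hz
      exact hAn _ (by rw [hnr s hs.1]; exact hs.1) (by rw [hnr s hs.1]; exact hs.2)
    refine Convex.image_sub_le_mul_sub_of_deriv_le (convex_Icc (9:ℝ) 11)
      (f := fun s : ℝ => z (s : ℂ)) ?_ ?_ ?_ x ⟨hx, by linarith⟩ y ⟨by linarith, hy⟩ hxy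
    · intro s hs
      exact (hd s hs).continuousAt.continuousWithinAt
    · intro s hs
      exact (hd s (interior_subset hs)).differentiableAt.differentiableWithinAt
    · intro s hs
      have hs' := interior_subset hs
      rw [(hd s hs').deriv]
      have h9 : ‖(s : ℂ)‖ = s := hnr s hs'.1
      have hA : (s : ℂ) ∈ An := hAn _ (by rw [h9]; exact hs'.1) (by rw [h9]; exact hs'.2)
      have h1 := hr _ hA
      have h2 : fderiv ℝ z (s : ℂ) (s : ℂ) = s * fderiv ℝ z (s : ℂ) 1 := by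
        have h3 : (s : ℂ) = s • (1 : ℂ) := by
          rw [Complex.real_smul, mul_one]
        conv_lhs => rw [h3]
        rw [map_smul, smul_eq_mul]
        congr 2
        rw [← h3]
      rw [h2] at h1
      have h4 := hre (s : ℂ) (by rw [h9]; exact hs'.1) (by rw [h9]; exact hs'.2)
      rw [h9] at h4
      have h5 : (P (s : ℂ)).re ≤ -(4 * s) := by nlinarith [hs'.1, hs'.2]
      have h6 : s * fderiv ℝ z (s : ℂ) 1 ≤ s * (-(4 * t)) := by
        rw [h1]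
        nlinarith
      exact le_of_mul_le_mul_left h6 (by linarith [hs'.1])
  -- angular
  have hang : ∀ ζ : ℂ, 9 ≤ ‖ζ‖ → ‖ζ‖ ≤ 11 → |z ζ - z ((‖ζ‖ : ℝ) : ℂ)| ≤ t * (19 / 100) := by
    intro ζ h1 h2
    have hn : ∀ s : ℝ, ‖((‖ζ‖ : ℝ) : ℂ) * Complex.exp (s * Complex.I)‖ = ‖ζ‖ := by
      intro s
      rw [norm_mul, Complex.norm_exp_ofReal_mul_I, mul_one, Complex.norm_real, norm_norm]
    have hd : ∀ s : ℝ, HasDerivAt (fun s : ℝ => z (((‖ζ‖ : ℝ) : ℂ) * Complex.exp (s * Complex.I)))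
      (fderiv ℝ z (((‖ζ‖ : ℝ) : ℂ) * Complex.exp (s * Complex.I))
        (Complex.I * (((‖ζ‖ : ℝ) : ℂ) * Complex.exp (s * Complex.I)))) s := by
      intro s
      apply ob_ang_deriv
      apply hz
      exact hAn _ (by rw [hn]; exact h1) (by rw [hn]; exact h2)
    have h3 := Convex.norm_image_sub_le_of_norm_deriv_le (𝕜 := ℝ)
      (f := fun s : ℝ => z (((‖ζ‖ : ℝ) : ℂ) * Complex.exp (s * Complex.I)))
      (C := t * (571 / 10000)) (s := Set.univ) (x := 0) (y := Complex.arg ζ)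
      (fun s _ => (hd s).differentiableAt) (by
        intro s _
        rw [(hd s).deriv, ha _ (hAn _ (by rw [hn]; exact h1) (by rw [hn]; exact h2)), norm_neg,
          norm_mul, Real.norm_eq_abs, Real.norm_eq_abs, abs_of_pos ht]
        exact mul_le_mul_of_nonneg_left (him _ (by rw [hn]; exact h1) (by rw [hn]; exact h2))
          ht.le) convex_univ (mem_univ _) (mem_univ _)
    simp only [Complex.norm_mul_exp_arg_mul_I, Complex.ofReal_zero, zero_mul, Complex.exp_zero,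
      mul_one, sub_zero] at h3
    rw [Real.norm_eq_abs, Real.norm_eq_abs] at h3
    refine h3.trans ?_
    have h4 : |Complex.arg ζ| ≤ 3.15 :=
      (Complex.abs_arg_le_pi ζ).trans Real.pi_lt_d2.le
    calc t * (571 / 10000) * |Complex.arg ζ| ≤ t * (571 / 10000) * 3.15 :=
          mul_le_mul_of_nonneg_left h4 (by positivity)
      _ ≤ t * (19 / 100) := by nlinarith
  refine ⟨?_, ?_, ?_⟩
  · intro ζ h1 h2
    have h3 := hang ζ h1 (by linarith)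
    have h4 := hrad ‖ζ‖ 10 h1 (by linarith) (by norm_num)
    rw [abs_le] at h3
    have h5 : ((10 : ℝ) : ℂ) = 10 := by norm_num
    rw [h5] at h4
    nlinarith [h3.1, h3.2]
  · intro ζ h1 h2
    have h3 := hang ζ (by linarith) h2
    have h4 := hrad 10 ‖ζ‖ (by norm_num) (by linarith) h2
    rw [abs_le] at h3
    have h5 : ((10 : ℝ) : ℂ) = 10 := by norm_num
    rw [h5] at h4
    nlinarith [h3.1, h3.2]
  · intro ζ h1 h2
    rw [hr ζ (hAn ζ h1 h2)]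
    have h3 := hre ζ h1 h2
    have h4 : (P ζ).re < 0 := by nlinarith
    exact mul_neg_of_pos_of_neg ht h4

end J_out_bounds
export J_out_bounds (out_bounds)
end Pool.Agent.Helper785.TL5
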