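import Pool.Agent.Helper785.TL5.Defs

set_option autoImplicit false
open Set Metric Pool.Agent.Helper676.TL Pool.Agent.Helper785.TL
open scoped ContDiff

namespace Pool.Agent.Helper785.TL5
namespace J_polar_ift




theorem polar_ift (g : ℝ × ℝ → ℝ)
    (hg : ContDiffOn ℝ ∞ g (Ioo (17 / 2) (23 / 2) ×ˢ (univ : Set ℝ)))
    (hd : ∀ ρ ∈ Icc (9 : ℝ) 11, ∀ θ : ℝ, fderiv ℝ g (ρ, θ) (1, 0) < 0)
    (h1 : ∀ θ : ℝ, ∀ ρ ∈ Icc (9 : ℝ) (19 / 2), 0 < g (ρ, θ))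
    (h2 : ∀ θ : ℝ, ∀ ρ ∈ Icc (21 / 2 : ℝ) 11, g (ρ, θ) < 0) :
    ∃ r : ℝ → ℝ, ContDiff ℝ ∞ r ∧ (∀ θ, r θ ∈ Ioo (19 / 2 : ℝ) (21 / 2)) ∧
      (∀ θ, g (r θ, θ) = 0) ∧ (∀ θ : ℝ, ∀ ρ ∈ Icc (9 : ℝ) 11, g (ρ, θ) = 0 → ρ = r θ) := by
  have hopen : IsOpen (Ioo (17 / 2 : ℝ) (23 / 2) ×ˢ (univ : Set ℝ)) := isOpen_Ioo.prod isOpen_univ
  have hga : ∀ ρ ∈ Icc (9 : ℝ) 11, ∀ θ : ℝ, ContDiffAt ℝ ∞ g (ρ, θ) := fun ρ hρ θ =>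
    hg.contDiffAt (hopen.mem_nhds ⟨⟨by linarith [hρ.1], by linarith [hρ.2]⟩, mem_univ _⟩)
  have hder : ∀ ρ ∈ Icc (9 : ℝ) 11, ∀ θ : ℝ,
      HasDerivAt (fun ρ => g (ρ, θ)) (fderiv ℝ g (ρ, θ) (1, 0)) ρ := by
    intro ρ hρ θ
    have h1 : HasFDerivAt g (fderiv ℝ g (ρ, θ)) (ρ, θ) :=
      ((hga ρ hρ θ).differentiableAt (by simp)).hasFDerivAt
    have h2 : HasDerivAt (fun ρ : ℝ => ((ρ, θ) : ℝ × ℝ)) ((1, 0) : ℝ × ℝ) ρ :=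
      (hasDerivAt_id ρ).prodMk (hasDerivAt_const ρ θ)
    exact h1.comp_hasDerivAt ρ h2
  have hanti : ∀ θ : ℝ, StrictAntiOn (fun ρ => g (ρ, θ)) (Icc 9 11) := by
    intro θ
    apply strictAntiOn_of_deriv_neg (convex_Icc _ _)
    · intro ρ hρ
      exact (hder ρ hρ θ).continuousAt.continuousWithinAt
    · intro ρ hρ
      rw [interior_Icc] at hρ
      rw [(hder ρ (Ioo_subset_Icc_self hρ) θ).deriv]
      exact hd ρ (Ioo_subset_Icc_self hρ) θ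
  have hex : ∀ θ : ℝ, ∃ ρ ∈ Ioo (19 / 2 : ℝ) (21 / 2), g (ρ, θ) = 0 := by
    intro θ
    have hc : ContinuousOn (fun ρ => g (ρ, θ)) (Icc (19 / 2) (21 / 2)) := fun ρ hρ =>
      (hder ρ ⟨by linarith [hρ.1], by linarith [hρ.2]⟩ θ).continuousAt.continuousWithinAt
    have ha := h1 θ (19 / 2) ⟨by norm_num, le_refl _⟩
    have hb := h2 θ (21 / 2) ⟨le_refl _, by norm_num⟩
    obtain ⟨ρ, hρ, hρ0⟩ := intermediate_value_Icc' (by norm_num : (19 / 2 : ℝ) ≤ 21 / 2) hc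
      (show (0 : ℝ) ∈ Icc _ _ from ⟨hb.le, ha.le⟩)
    have hρ0' : g (ρ, θ) = 0 := hρ0
    refine ⟨ρ, ⟨lt_of_le_of_ne hρ.1 ?_, lt_of_le_of_ne hρ.2 ?_⟩, hρ0⟩
    · rintro rfl
      linarith
    · rintro rfl
      linarith
  choose r hr hr0 using hex
  have huniq : ∀ θ : ℝ, ∀ ρ ∈ Icc (9 : ℝ) 11, g (ρ, θ) = 0 → ρ = r θ := by
    intro θ ρ hρ h0
    refine (hanti θ).injOn hρ ⟨by linarith [(hr θ).1], by linarith [(hr θ).2]⟩ ?_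
    show g (ρ, θ) = g (r θ, θ)
    rw [h0, hr0]
  refine ⟨r, ?_, hr, hr0, huniq⟩
  rw [contDiff_iff_contDiffAt]
  intro θ₀
  have hrI : r θ₀ ∈ Icc (9 : ℝ) 11 := ⟨by linarith [(hr θ₀).1], by linarith [(hr θ₀).2]⟩
  let f : ℝ × ℝ → ℝ := fun v => g (v.2, v.1)
  have hsw : ContDiffAt ℝ ∞ (fun v : ℝ × ℝ => ((v.2, v.1) : ℝ × ℝ)) (θ₀, r θ₀) :=
    contDiffAt_snd.prodMk contDiffAt_fst
  have cdf : ContDiffAt ℝ ∞ f (θ₀, r θ₀) :=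
    ContDiffAt.comp (g := g) (f := fun v : ℝ × ℝ => ((v.2, v.1) : ℝ × ℝ)) (θ₀, r θ₀)
      (hga _ hrI θ₀) hsw
  have pn : (∞ : WithTop ℕ∞) ≠ 0 := by simp
  have hval : (fderiv ℝ f (θ₀, r θ₀) ∘L ContinuousLinearMap.inr ℝ ℝ ℝ) 1 =
      fderiv ℝ g (r θ₀, θ₀) (1, 0) := by
    have e1 : HasFDerivAt f (fderiv ℝ f (θ₀, r θ₀)) (θ₀, r θ₀) :=
      (cdf.differentiableAt pn).hasFDerivAt
    have e2 : HasDerivAt (fun ρ : ℝ => ((θ₀, ρ) : ℝ × ℝ)) ((0, 1) : ℝ × ℝ) (r θ₀) :=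
      (hasDerivAt_const _ θ₀).prodMk (hasDerivAt_id _)
    have e3 : HasDerivAt (fun ρ : ℝ => f (θ₀, ρ)) (fderiv ℝ f (θ₀, r θ₀) (0, 1)) (r θ₀) :=
      e1.comp_hasDerivAt (r θ₀) e2
    exact e3.unique (hder _ hrI θ₀)
  have hne : (fderiv ℝ f (θ₀, r θ₀) ∘L ContinuousLinearMap.inr ℝ ℝ ℝ) 1 ≠ 0 := by
    rw [hval]
    exact (hd _ hrI θ₀).ne
  have if2 : (fderiv ℝ f (θ₀, r θ₀) ∘L ContinuousLinearMap.inr ℝ ℝ ℝ).IsInvertible := by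
    refine ⟨ContinuousLinearEquiv.unitsEquivAut ℝ (Units.mk0 _ hne), ?_⟩
    ext
    simp
  have hψ := cdf.contDiffAt_implicitFunction pn if2
  have hψ0 := cdf.implicitFunction_apply_self pn if2
  have hψe := cdf.eventually_apply_implicitFunction pn if2
  refine hψ.congr_of_eventuallyEq ?_
  have hcont : ∀ᶠ x in nhds θ₀, cdf.implicitFunction pn if2 x ∈ Ioo (9 : ℝ) 11 := by
    have h3 : ContinuousAt (cdf.implicitFunction pn if2) θ₀ := hψ.continuousAt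
    have h4 : Ioo (9 : ℝ) 11 ∈ nhds (cdf.implicitFunction pn if2 θ₀) := by
      have h5 : cdf.implicitFunction pn if2 θ₀ = r θ₀ := hψ0
      rw [h5]
      exact isOpen_Ioo.mem_nhds ⟨by linarith [(hr θ₀).1], by linarith [(hr θ₀).2]⟩
    exact h3 h4
  filter_upwards [hcont, hψe] with x hx hx'
  refine (huniq x _ (Ioo_subset_Icc_self hx) ?_).symm
  have h6 : f (x, cdf.implicitFunction pn if2 x) = f (θ₀, r θ₀) := hx'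
  have h7 : f (θ₀, r θ₀) = 0 := hr0 θ₀
  rw [h7] at h6
  exact h6

end J_polar_ift
export J_polar_ift (polar_ift)
end Pool.Agent.Helper785.TL5
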