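import Pool.Agent.Helper785.TL5.Defs
import Pool.Agent.Helper785.TL5.P_polar_ift
import Pool.Agent.Helper785.TL5.P_out_bounds

set_option autoImplicit false
open Set Metric Pool.Agent.Helper676.TL Pool.Agent.Helper785.TL
open scoped ContDiff

namespace Pool.Agent.Helper785.TL5
namespace J_level_curve











theorem level_curve_norm (ρ θ : ℝ) (h : 0 ≤ ρ) :
    ‖(ρ : ℂ) * Complex.exp (θ * Complex.I)‖ = ρ := by
  rw [norm_mul, Complex.norm_exp_ofReal_mul_I, mul_one, Complex.norm_real, Real.norm_of_nonneg h]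

theorem level_curve_smooth :
    ContDiff ℝ ∞ (fun p : ℝ × ℝ => (p.1 : ℂ) * Complex.exp (p.2 * Complex.I)) := by
  have h1 : ContDiff ℝ ∞ (fun p : ℝ × ℝ => (p.1 : ℂ)) :=
    Complex.ofRealCLM.contDiff.comp contDiff_fst
  have h2 : ContDiff ℝ ∞ (fun p : ℝ × ℝ => (p.2 : ℂ)) :=
    Complex.ofRealCLM.contDiff.comp contDiff_snd
  exact h1.mul ((h2.mul contDiff_const).cexp)

theorem level_curve_isOpen : IsOpen An := by
  have e : An = {ζ : ℂ | 17 / 2 < ‖ζ‖} ∩ {ζ : ℂ | ‖ζ‖ < 23 / 2} := by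
    ext z
    rfl
  rw [e]
  exact (isOpen_lt continuous_const continuous_norm).inter
    (isOpen_lt continuous_norm continuous_const)

theorem level_curve (t h : ℝ) (P : ℂ → ℂ) (z : ℂ → ℝ) (ht : 0 < t) (hh : 1 / 2 ≤ h)
    (hz : ContDiffOn ℝ ∞ z An)
    (hr : ∀ ζ ∈ An, fderiv ℝ z ζ ζ = t * (P ζ).re)
    (ha : ∀ ζ ∈ An, fderiv ℝ z ζ (Complex.I * ζ) = -(t * (P ζ).im))
    (hP : ∀ ζ ∈ An, ‖P ζ - P0 h ζ‖ ≤ 1 / 10000) :
    ∃ r : ℝ → ℝ, ContDiff ℝ ∞ r ∧ (∀ θ, r θ ∈ Ioo (19 / 2 : ℝ) (21 / 2)) ∧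
      (∀ θ, r (θ + 2 * Real.pi) = r θ) ∧ r 0 = 10 ∧ (∀ θ, z (pol r θ) = z 10) ∧
      (∀ ζ : ℂ, 9 ≤ ‖ζ‖ → ‖ζ‖ ≤ 11 → z ζ = z 10 → ∃ θ, ζ = pol r θ) ∧
      (∀ θ, deriv r θ = r θ * ((P (pol r θ)).im / (P (pol r θ)).re)) := by
  have hdiff : ∀ ζ ∈ An, DifferentiableAt ℝ z ζ := by
    intro ζ hζ
    exact (hz.contDiffAt (level_curve_isOpen.mem_nhds hζ)).differentiableAt (by simp)
  obtain ⟨o1, o2, o3⟩ := out_bounds t h P z ht hh hdiff hr ha hP
  set Φ : ℝ × ℝ → ℂ := fun p => (p.1 : ℂ) * Complex.exp (p.2 * Complex.I) with hΦ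
  have hΦn : ∀ ρ θ : ℝ, 0 ≤ ρ → ‖Φ (ρ, θ)‖ = ρ := fun ρ θ h => level_curve_norm ρ θ h
  have hΦA : ∀ ρ θ : ℝ, 17 / 2 < ρ → ρ < 23 / 2 → Φ (ρ, θ) ∈ An := by
    intro ρ θ h1 h2
    show 17 / 2 < ‖Φ (ρ, θ)‖ ∧ ‖Φ (ρ, θ)‖ < 23 / 2
    rw [hΦn ρ θ (by linarith)]
    exact ⟨h1, h2⟩
  set g : ℝ × ℝ → ℝ := fun p => z (Φ p) - z 10 with hg
  have hgs : ContDiffOn ℝ ∞ g (Ioo (17 / 2) (23 / 2) ×ˢ (univ : Set ℝ)) := by
    refine ContDiffOn.sub ?_ contDiffOn_const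
    refine hz.comp level_curve_smooth.contDiffOn ?_
    rintro ⟨ρ, θ⟩ ⟨hρ, -⟩
    exact hΦA ρ θ hρ.1 hρ.2
  have hline : ∀ ρ θ : ℝ, 17 / 2 < ρ → ρ < 23 / 2 →
      HasDerivAt (fun s : ℝ => z (Φ (s, θ))) (fderiv ℝ z (Φ (ρ, θ)) (Complex.exp (θ * Complex.I))) ρ := by
    intro ρ θ h1 h2
    have hin : HasDerivAt (fun s : ℝ => Φ (s, θ)) (Complex.exp (θ * Complex.I)) ρ := by
      have := (Complex.ofRealCLM.hasDerivAt (x := ρ)).mul_const (Complex.exp (θ * Complex.I))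
      simpa [hΦ] using this
    exact (hdiff _ (hΦA ρ θ h1 h2)).hasFDerivAt.comp_hasDerivAt ρ hin
  have hd : ∀ ρ ∈ Icc (9 : ℝ) 11, ∀ θ : ℝ, fderiv ℝ g (ρ, θ) (1, 0) < 0 := by
    intro ρ hρ θ
    have h1 : (17 : ℝ) / 2 < ρ := by linarith [hρ.1]
    have h2 : ρ < 23 / 2 := by linarith [hρ.2]
    have hgd : DifferentiableAt ℝ g (ρ, θ) := by
      refine (hgs.contDiffAt ?_).differentiableAt (by simp)
      exact (isOpen_Ioo.prod isOpen_univ).mem_nhds ⟨⟨h1, h2⟩, trivial⟩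
    have hcurve : HasDerivAt (fun s : ℝ => ((s, θ) : ℝ × ℝ)) (1, 0) ρ :=
      (hasDerivAt_id ρ).prodMk (hasDerivAt_const ρ θ)
    have hg1 : HasDerivAt (fun s : ℝ => g (s, θ)) (fderiv ℝ g (ρ, θ) (1, 0)) ρ :=
      HasFDerivAt.comp_hasDerivAt (l := g) (f := fun s : ℝ => ((s, θ) : ℝ × ℝ)) ρ
        hgd.hasFDerivAt hcurve
    have hg2 : HasDerivAt (fun s : ℝ => g (s, θ))
        (fderiv ℝ z (Φ (ρ, θ)) (Complex.exp (θ * Complex.I))) ρ :=
      (hline ρ θ h1 h2).sub_const (z 10)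
    rw [hg1.unique hg2]
    have hρ0 : (0 : ℝ) < ρ := by linarith
    have e : Complex.exp (θ * Complex.I) = (1 / ρ : ℝ) • Φ (ρ, θ) := by
      have hρc : (ρ : ℂ) ≠ 0 := by exact_mod_cast hρ0.ne'
      simp only [hΦ, Complex.real_smul]
      push_cast
      field_simp
    rw [e, map_smul, smul_eq_mul]
    have := o3 (Φ (ρ, θ)) (by rw [hΦn ρ θ hρ0.le]; exact hρ.1) (by rw [hΦn ρ θ hρ0.le]; exact hρ.2)
    exact mul_neg_of_pos_of_neg (by positivity) this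
  obtain ⟨r, r1, r2, r3, r4⟩ := polar_ift g hgs hd
    (by
      intro θ ρ hρ
      have hρ0 : (0 : ℝ) ≤ ρ := by linarith [hρ.1]
      have := o1 (Φ (ρ, θ)) (by rw [hΦn ρ θ hρ0]; exact hρ.1) (by rw [hΦn ρ θ hρ0]; exact hρ.2)
      show 0 < z (Φ (ρ, θ)) - z 10
      linarith)
    (by
      intro θ ρ hρ
      have hρ0 : (0 : ℝ) ≤ ρ := by linarith [hρ.1]
      have := o2 (Φ (ρ, θ)) (by rw [hΦn ρ θ hρ0]; exact hρ.1) (by rw [hΦn ρ θ hρ0]; exact hρ.2)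
      show z (Φ (ρ, θ)) - z 10 < 0
      linarith)
  have hpol : ∀ θ, pol r θ = Φ (r θ, θ) := fun θ => rfl
  have hzc : ∀ θ, z (pol r θ) = z 10 := by
    intro θ
    have := r3 θ
    have h' : z (Φ (r θ, θ)) - z 10 = 0 := this
    rw [hpol]
    linarith
  refine ⟨r, r1, r2, ?_, ?_, hzc, ?_, ?_⟩
  · intro θ
    apply r4 θ
    · have := r2 (θ + 2 * Real.pi)
      exact ⟨by linarith [this.1], by linarith [this.2]⟩
    · have h3 := r3 (θ + 2 * Real.pi)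
      have e : Φ (r (θ + 2 * Real.pi), θ) = Φ (r (θ + 2 * Real.pi), θ + 2 * Real.pi) := by
        simp only [hΦ]
        congr 1
        push_cast
        rw [add_mul, Complex.exp_add, Complex.exp_two_pi_mul_I, mul_one]
      show z (Φ (r (θ + 2 * Real.pi), θ)) - z 10 = 0
      rw [e]
      exact h3
  · symm
    apply r4 0
    · constructor <;> norm_num
    · show z (Φ (10, 0)) - z 10 = 0
      have e : Φ (10, 0) = 10 := by
        simp [hΦ]
      rw [e, sub_self]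
  · intro ζ h1 h2 h3
    refine ⟨Complex.arg ζ, ?_⟩
    have e : Φ (‖ζ‖, Complex.arg ζ) = ζ := Complex.norm_mul_exp_arg_mul_I ζ
    have h4 := r4 (Complex.arg ζ) ‖ζ‖ ⟨h1, h2⟩ (by
      show z (Φ (‖ζ‖, Complex.arg ζ)) - z 10 = 0
      rw [e, h3, sub_self])
    rw [hpol, ← h4, e]
  · intro θ
    have hr0 : 0 < r θ := by linarith [(r2 θ).1]
    have hwA : Φ (r θ, θ) ∈ An := hΦA _ _ (by linarith [(r2 θ).1]) (by linarith [(r2 θ).2])
    have hrd : HasDerivAt r (deriv r θ) θ :=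
      (r1.contDiffAt.differentiableAt (by simp)).hasDerivAt
    have hexp : HasDerivAt (fun s : ℝ => Complex.exp (s * Complex.I))
        (Complex.exp (θ * Complex.I) * Complex.I) θ := by
      have h1 : HasDerivAt (fun s : ℝ => (s : ℂ) * Complex.I) Complex.I θ := by
        have := (Complex.ofRealCLM.hasDerivAt (x := θ)).mul_const Complex.I
        simpa using this
      exact h1.cexp
    have hrc : HasDerivAt (fun s : ℝ => (r s : ℂ)) ((deriv r θ : ℝ) : ℂ) θ := hrd.ofReal_comp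
    have hpd : HasDerivAt (fun s : ℝ => Φ (r s, s))
        (((deriv r θ : ℝ) : ℂ) * Complex.exp (θ * Complex.I) +
          (r θ : ℂ) * (Complex.exp (θ * Complex.I) * Complex.I)) θ := hrc.mul hexp
    have hcomp := (hdiff _ hwA).hasFDerivAt.comp_hasDerivAt θ hpd
    have hconst : HasDerivAt (z ∘ fun s : ℝ => Φ (r s, s)) 0 θ := by
      have e : (z ∘ fun s : ℝ => Φ (r s, s)) = fun _ => z 10 := by
        funext s
        exact hzc s
      rw [e]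
      exact hasDerivAt_const _ _
    have h0 := hcomp.unique hconst
    have ew : ((deriv r θ : ℝ) : ℂ) * Complex.exp (θ * Complex.I) +
          (r θ : ℂ) * (Complex.exp (θ * Complex.I) * Complex.I) =
        (deriv r θ / r θ : ℝ) • Φ (r θ, θ) + Complex.I * Φ (r θ, θ) := by
      have : (r θ : ℂ) ≠ 0 := by exact_mod_cast hr0.ne'
      simp only [hΦ, Complex.real_smul]
      push_cast
      field_simp
    rw [ew, map_add, map_smul, smul_eq_mul, hr _ hwA, ha _ hwA] at h0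
    have hneg := o3 (Φ (r θ, θ)) (by rw [hΦn _ _ hr0.le]; linarith [(r2 θ).1])
      (by rw [hΦn _ _ hr0.le]; linarith [(r2 θ).2])
    rw [hr _ hwA] at hneg
    have hre : (P (Φ (r θ, θ))).re ≠ 0 := by
      intro hc
      rw [hc, mul_zero] at hneg
      exact lt_irrefl _ hneg
    rw [hpol]
    field_simp at h0 ⊢
    have ht' := ht.ne'
    have : t * (deriv r θ * (P (Φ (r θ, θ))).re) = t * (r θ * (P (Φ (r θ, θ))).im) := by
      linarith
    exact mul_left_cancel₀ ht' this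

end J_level_curve
export J_level_curve (level_curve)
end Pool.Agent.Helper785.TL5
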