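import Pool.Agent.Helper785.TL5.Defs

set_option autoImplicit false
open Set Metric Pool.Agent.Helper676.TL Pool.Agent.Helper785.TL
open scoped ContDiff

namespace Pool.Agent.Helper785.TL5
namespace J_P0_der




theorem P0_der_aux (h : ℝ) (ζ : ℂ) (hne : ζ ^ 2 - 1 ≠ 0) :
    DifferentiableAt ℝ (P0 h) ζ ∧ ∀ v : ℂ, fderiv ℝ (P0 h) ζ v =
      -(8 * ζ) / (ζ ^ 2 - 1) ^ 2 * v - (h : ℂ) * (v * cj ζ + ζ * cj v) := by
  have h1 : HasDerivAt (fun w : ℂ => w ^ 2 - 1) (2 * ζ) ζ := by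
    have := (hasDerivAt_pow 2 ζ).sub_const (1 : ℂ)
    simpa using this
  have h2 : HasDerivAt (fun w : ℂ => 4 / (w ^ 2 - 1)) (-(8 * ζ) / (ζ ^ 2 - 1) ^ 2) ζ := by
    have h3 := (h1.inv hne).const_mul (4 : ℂ)
    have h4 : (fun w : ℂ => 4 / (w ^ 2 - 1)) = fun w : ℂ => 4 * (w ^ 2 - 1)⁻¹ := by
      funext w; rw [div_eq_mul_inv]
    rw [h4]
    refine h3.congr_deriv ?_
    field_simp
    ring
  have h3 : HasFDerivAt (fun w : ℂ => 4 / (w ^ 2 - 1))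
      ((ContinuousLinearMap.toSpanSingleton ℂ (-(8 * ζ) / (ζ ^ 2 - 1) ^ 2)).restrictScalars ℝ) ζ :=
    h2.hasFDerivAt.restrictScalars ℝ
  have h4 : HasFDerivAt (fun w : ℂ => cj w) (Complex.conjCLE : ℂ →L[ℝ] ℂ) ζ :=
    (Complex.conjCLE : ℂ →L[ℝ] ℂ).hasFDerivAt
  have h5 : HasFDerivAt (fun w : ℂ => (h : ℂ) * (w * cj w)) _ ζ :=
    ((hasFDerivAt_id ζ).mul h4).const_mul (h : ℂ)
  have h6 : HasFDerivAt (P0 h) _ ζ := (h3.const_add 4).sub h5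
  refine ⟨h6.differentiableAt, fun v => ?_⟩
  rw [h6.fderiv]
  simp
  ring

theorem P0_der (h : ℝ) (hh : 1 / 2 ≤ h) (ζ : ℂ) (hζ : ζ ∈ An) (h1 : 19 / 2 ≤ ‖ζ‖) :
    DifferentiableAt ℝ (P0 h) ζ ∧ ∀ v : ℂ, |(fderiv ℝ (P0 h) ζ v).im| ≤ 96 / 10000 * ‖v‖ ∧
      |(fderiv ℝ (P0 h) ζ v).re| ≤ (96 / 10000 + 2 * h * ‖ζ‖) * ‖v‖ := by
  have hs : ‖ζ‖ ^ 2 - 1 ≤ ‖ζ ^ 2 - 1‖ := by
    have := norm_sub_norm_le (ζ ^ 2) 1
    rwa [norm_pow, norm_one] at this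
  have hpos : 0 < ‖ζ‖ ^ 2 - 1 := by nlinarith
  have hne : ζ ^ 2 - 1 ≠ 0 := norm_pos_iff.1 (lt_of_lt_of_le hpos hs)
  obtain ⟨hd, hv⟩ := P0_der_aux h ζ hne
  have hc : ‖-(8 * ζ) / (ζ ^ 2 - 1) ^ 2‖ ≤ 96 / 10000 := by
    rw [norm_div, norm_neg, norm_mul, norm_pow]
    have h8 : ‖(8 : ℂ)‖ = 8 := by simp
    rw [h8, div_le_iff₀ (by positivity)]
    have h9 : (‖ζ‖ ^ 2 - 1) ^ 2 ≤ ‖ζ ^ 2 - 1‖ ^ 2 := pow_le_pow_left₀ hpos.le hs 2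
    have h10 : 357 / 4 ≤ ‖ζ‖ ^ 2 - 1 := by nlinarith
    have h11 : 357 / 4 * (‖ζ‖ ^ 2 - 1) ≤ (‖ζ‖ ^ 2 - 1) ^ 2 := by nlinarith
    nlinarith
  refine ⟨hd, fun v => ?_⟩
  have hre : (v * cj ζ + ζ * cj v).im = 0 := by
    simp [cj]
    ring
  have hre2 : |(v * cj ζ + ζ * cj v).re| ≤ 2 * ‖ζ‖ * ‖v‖ := by
    refine (Complex.abs_re_le_norm _).trans ((norm_add_le _ _).trans ?_)
    rw [norm_mul, norm_mul]
    have e1 : ‖cj ζ‖ = ‖ζ‖ := RCLike.norm_conj ζ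
    have e2 : ‖cj v‖ = ‖v‖ := RCLike.norm_conj v
    rw [e1, e2]
    linarith
  have hb : ‖-(8 * ζ) / (ζ ^ 2 - 1) ^ 2 * v‖ ≤ 96 / 10000 * ‖v‖ := by
    rw [norm_mul]
    exact mul_le_mul_of_nonneg_right hc (norm_nonneg v)
  rw [hv v]
  constructor
  · rw [Complex.sub_im, Complex.im_ofReal_mul, hre, mul_zero, sub_zero]
    exact (Complex.abs_im_le_norm _).trans hb
  · rw [Complex.sub_re, Complex.re_ofReal_mul]
    refine (abs_sub _ _).trans ?_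
    have e3 : |h * (v * cj ζ + ζ * cj v).re| ≤ h * (2 * ‖ζ‖ * ‖v‖) := by
      rw [abs_mul, abs_of_pos (by linarith : (0:ℝ) < h)]
      exact mul_le_mul_of_nonneg_left hre2 (by linarith)
    have e4 := (Complex.abs_re_le_norm _).trans hb
    linarith

end J_P0_der
export J_P0_der (P0_der)
end Pool.Agent.Helper785.TL5
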