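import Pool.Agent.Helper785.TL5.Defs
import Pool.Agent.Helper785.TL5.P_P0_val
import Pool.Agent.Helper785.TL5.P_P0_der

set_option autoImplicit false
open Set Metric Pool.Agent.Helper676.TL Pool.Agent.Helper785.TL
open scoped ContDiff

namespace Pool.Agent.Helper785.TL5
namespace J_r_bounds











theorem h400_pol_norm (r : ℝ → ℝ) (θ : ℝ) (hr : 0 < r θ) : ‖pol r θ‖ = r θ := by
  unfold pol
  rw [norm_mul, Complex.norm_exp_ofReal_mul_I, mul_one, Complex.norm_real, Real.norm_eq_abs,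
    abs_of_pos hr]

theorem h400_pol_deriv (r : ℝ → ℝ) (r' θ : ℝ) (hr : HasDerivAt r r' θ) :
    HasDerivAt (pol r) ((r' : ℂ) * Complex.exp (θ * Complex.I) +
      (r θ : ℂ) * (Complex.exp (θ * Complex.I) * Complex.I)) θ := by
  have h1 : HasDerivAt (fun x : ℝ => (r x : ℂ)) (r' : ℂ) θ := hr.ofReal_comp
  have h2 : HasDerivAt (fun x : ℝ => Complex.exp ((x : ℂ) * Complex.I))
      (Complex.exp (θ * Complex.I) * Complex.I) θ := by
    have h3 : HasDerivAt (fun x : ℝ => (x : ℂ) * Complex.I) Complex.I θ := by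
      have := (hasDerivAt_id θ).ofReal_comp.mul_const Complex.I
      simpa using this
    exact h3.cexp
  exact h1.mul h2

theorem h400_num (R h im im' re' : ℝ) (hR : 41 ≤ R) (hRh : 82 * h ≤ R) (him : |im| ≤ 451 / 10000)
    (him' : |im'| ≤ 103 / 1000) (hre' : |re'| ≤ 103 / 1000 + 221 * h) :
    |(im' * (-R) - im * re') / (-R) ^ 2| ≤ 56 / 10000 := by
  have hR0 : 0 < R := by linarith
  have hsq : 0 < (-R) ^ 2 := by nlinarith
  rw [abs_div, abs_of_pos hsq, div_le_iff₀ hsq]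
  have h1 : |im' * (-R) - im * re'| ≤ |im'| * R + |im| * |re'| := by
    refine (abs_sub _ _).trans ?_
    rw [abs_mul, abs_mul, abs_neg, abs_of_pos hR0]
  have h2 : |im'| * R ≤ 103 / 1000 * R := mul_le_mul_of_nonneg_right him' hR0.le
  have h3 : |im| * |re'| ≤ 451 / 10000 * (103 / 1000 + 221 * (R / 82)) :=
    mul_le_mul him (hre'.trans (by linarith)) (abs_nonneg _) (by norm_num)
  nlinarith

theorem r_bounds (h : ℝ) (hh : 1 / 2 ≤ h) (P : ℂ → ℂ)
    (hP0 : ∀ ζ ∈ An, DifferentiableAt ℝ P ζ)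
    (hP : ∀ ζ ∈ An, ‖P ζ - P0 h ζ‖ ≤ 1 / 10000)
    (hP1 : ∀ ζ ∈ An, ‖fderiv ℝ (fun w => P w - P0 h w) ζ‖ ≤ 1 / 10000)
    (r : ℝ → ℝ) (hr : ContDiff ℝ ∞ r) (hr1 : ∀ θ, r θ ∈ Ioo (19 / 2 : ℝ) (21 / 2))
    (hr2 : ∀ θ, r (θ + 2 * Real.pi) = r θ) (hr3 : r 0 = 10)
    (hr4 : ∀ θ, deriv r θ = r θ * ((P (pol r θ)).im / (P (pol r θ)).re)) (θ : ℝ) :
    |deriv r θ| ≤ 12 / 1000 ∧ |r θ - 10| ≤ 38 / 1000 ∧ |deriv (deriv r) θ| ≤ 65 / 1000 := by
  have hpos : ∀ x, 0 < r x := fun x => by linarith [(hr1 x).1]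
  have hnorm : ∀ x, ‖pol r x‖ = r x := fun x => h400_pol_norm r x (hpos x)
  have hAn : ∀ x, pol r x ∈ An := by
    intro x
    have h1 := hr1 x
    show 17 / 2 < ‖pol r x‖ ∧ ‖pol r x‖ < 23 / 2
    rw [hnorm]
    constructor <;> linarith [h1.1, h1.2]
  have hge : ∀ x, 19 / 2 ≤ ‖pol r x‖ := by
    intro x
    rw [hnorm]
    exact (hr1 x).1.le
  -- bounds for the values of `P`
  have hval : ∀ x, |(P (pol r x)).im| ≤ 451 / 10000 ∧ 41 ≤ -(P (pol r x)).re ∧
      82 * h ≤ -(P (pol r x)).re := by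
    intro x
    obtain ⟨-, -, h3⟩ := P0_val h hh (pol r x) (hAn x)
    obtain ⟨h4, h5⟩ := h3 (hge x)
    have h6 := hP _ (hAn x)
    have h7 := (Complex.abs_re_le_norm _).trans h6
    have h8 := (Complex.abs_im_le_norm _).trans h6
    rw [Complex.sub_re] at h7
    rw [Complex.sub_im] at h8
    rw [abs_le] at h7 h8 h5
    rw [hnorm] at h4
    have h9 : (361 / 4 : ℝ) ≤ r x ^ 2 := by nlinarith [(hr1 x).1]
    refine ⟨abs_le.mpr ⟨by linarith [h8.1, h5.1], by linarith [h8.2, h5.2]⟩, ?_, ?_⟩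
    · nlinarith [h7.2]
    · nlinarith [h7.2]
  -- the first derivative
  have hq : ∀ x, |(P (pol r x)).im / (P (pol r x)).re| ≤ 11 / 10000 := by
    intro x
    obtain ⟨h1, h2, -⟩ := hval x
    have h3 : 0 < |(P (pol r x)).re| := abs_pos.mpr (by linarith)
    rw [abs_div, div_le_iff₀ h3]
    have h4 : 41 ≤ |(P (pol r x)).re| := h2.trans (neg_le_abs _)
    linarith
  have hd1 : ∀ x, |deriv r x| ≤ 1155 / 100000 := by
    intro x
    rw [hr4, abs_mul, abs_of_pos (hpos x)]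
    calc r x * |(P (pol r x)).im / (P (pol r x)).re| ≤ 21 / 2 * (11 / 10000) :=
          mul_le_mul (hr1 x).2.le (hq x) (abs_nonneg _) (by norm_num)
      _ = 1155 / 100000 := by norm_num
  have hdiff : Differentiable ℝ r := hr.differentiable (by simp)
  refine ⟨(hd1 θ).trans (by norm_num), ?_, ?_⟩
  · -- the distance to 10
    obtain ⟨k, hk⟩ : ∃ k : ℤ, k = round (θ / (2 * Real.pi)) := ⟨_, rfl⟩
    have hpi := Real.pi_pos
    have h1 : |θ - k * (2 * Real.pi)| ≤ Real.pi := by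
      have h2 := abs_sub_round (θ / (2 * Real.pi))
      rw [← hk] at h2
      have h3 : θ / (2 * Real.pi) - k = (θ - k * (2 * Real.pi)) / (2 * Real.pi) := by
        field_simp
      rw [h3, abs_div, abs_of_pos (show (0:ℝ) < 2 * Real.pi by positivity),
        div_le_iff₀ (by positivity)] at h2
      linarith
    have hper : Function.Periodic r (2 * Real.pi) := hr2
    have h2 : r θ = r (θ - k * (2 * Real.pi)) := (hper.sub_int_mul_eq k).symm
    have h3 := Convex.norm_image_sub_le_of_norm_deriv_le (f := r) (C := 12 / 1000)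
      (s := (Set.univ : Set ℝ)) (fun x _ => hdiff x) (fun x _ => by
        rw [Real.norm_eq_abs]
        exact (hd1 x).trans (by norm_num)) convex_univ (Set.mem_univ 0)
      (Set.mem_univ (θ - k * (2 * Real.pi)))
    rw [← h2, hr3, Real.norm_eq_abs, Real.norm_eq_abs, sub_zero] at h3
    have h4 := Real.pi_lt_d2
    refine h3.trans ?_
    calc 12 / 1000 * |θ - k * (2 * Real.pi)| ≤ 12 / 1000 * Real.pi :=
          mul_le_mul_of_nonneg_left h1 (by norm_num)
      _ ≤ 38 / 1000 := by linarith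
  · -- the second derivative
    obtain ⟨h1, h2, h3⟩ := hval θ
    have hrd : HasDerivAt r (deriv r θ) θ := (hdiff θ).hasDerivAt
    have hpol := h400_pol_deriv r (deriv r θ) θ hrd
    obtain ⟨w', hw'⟩ : ∃ w', w' = ((deriv r θ : ℝ) : ℂ) * Complex.exp (θ * Complex.I) +
      (r θ : ℂ) * (Complex.exp (θ * Complex.I) * Complex.I) := ⟨_, rfl⟩
    rw [← hw'] at hpol
    have hw'n : ‖w'‖ ≤ 1052 / 100 := by
      rw [hw']
      refine (norm_add_le _ _).trans ?_
      rw [norm_mul, norm_mul, norm_mul, Complex.norm_exp_ofReal_mul_I, Complex.norm_I, mul_one,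
        mul_one, mul_one, Complex.norm_real, Complex.norm_real, Real.norm_eq_abs, Real.norm_eq_abs,
        abs_of_pos (hpos θ)]
      linarith [hd1 θ, (hr1 θ).2]
    obtain ⟨hP0d, hP0b⟩ := P0_der h hh (pol r θ) (hAn θ) (hge θ)
    have hPd := hP0 _ (hAn θ)
    have hsub : fderiv ℝ (fun w => P w - P0 h w) (pol r θ) =
        fderiv ℝ P (pol r θ) - fderiv ℝ (P0 h) (pol r θ) :=
      (hPd.hasFDerivAt.sub hP0d.hasFDerivAt).fderiv
    have hrest : ‖(fderiv ℝ P (pol r θ) - fderiv ℝ (P0 h) (pol r θ)) w'‖ ≤ 1 / 10000 * ‖w'‖ := by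
      rw [← hsub]
      exact (ContinuousLinearMap.le_opNorm _ _).trans
        (mul_le_mul_of_nonneg_right (hP1 _ (hAn θ)) (norm_nonneg _))
    have hval' : fderiv ℝ P (pol r θ) w' = fderiv ℝ (P0 h) (pol r θ) w' +
        (fderiv ℝ P (pol r θ) - fderiv ℝ (P0 h) (pol r θ)) w' := by
      rw [_root_.sub_apply]
      ring
    obtain ⟨D, hD⟩ : ∃ D, D = fderiv ℝ P (pol r θ) w' := ⟨_, rfl⟩
    obtain ⟨D0, hD0⟩ : ∃ D0, D0 = fderiv ℝ (P0 h) (pol r θ) w' := ⟨_, rfl⟩
    obtain ⟨D1, hD1⟩ : ∃ D1, D1 = (fderiv ℝ P (pol r θ) - fderiv ℝ (P0 h) (pol r θ)) w' := ⟨_, rfl⟩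
    rw [← hD, ← hD0, ← hD1] at hval'
    rw [← hD1] at hrest
    obtain ⟨hi0, hre0⟩ := hP0b w'
    rw [← hD0] at hi0 hre0
    have hn0 := norm_nonneg w'
    have hDim : |D.im| ≤ 103 / 1000 := by
      rw [hval', Complex.add_im]
      have e1 := (Complex.abs_im_le_norm D1).trans hrest
      have e2 := abs_add_le D0.im D1.im
      nlinarith
    have hDre : |D.re| ≤ 103 / 1000 + 221 * h := by
      rw [hval', Complex.add_re]
      have e1 := (Complex.abs_re_le_norm D1).trans hrest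
      have e2 := abs_add_le D0.re D1.re
      rw [hnorm] at hre0
      have e3 : (96 / 10000 + 2 * h * r θ) * ‖w'‖ ≤ (96 / 10000 + 21 * h) * (1052 / 100) := by
        apply mul_le_mul _ hw'n hn0 (by linarith)
        nlinarith [(hr1 θ).2]
      nlinarith
    -- derivative of the quotient
    have hPc : HasDerivAt (fun x => P (pol r x)) D θ := by
      rw [hD]
      exact hPd.hasFDerivAt.comp_hasDerivAt θ hpol
    have hPim : HasDerivAt (fun x => (P (pol r x)).im) D.im θ :=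
      Complex.imCLM.hasFDerivAt.comp_hasDerivAt θ hPc
    have hPre : HasDerivAt (fun x => (P (pol r x)).re) D.re θ :=
      Complex.reCLM.hasFDerivAt.comp_hasDerivAt θ hPc
    have hne : (P (pol r θ)).re ≠ 0 := by linarith
    have hqd := hPim.div hPre hne
    have hrr := hrd.mul hqd
    have hfun : deriv r = fun x => r x * ((P (pol r x)).im / (P (pol r x)).re) := funext hr4
    have hdd : deriv (deriv r) θ = deriv r θ * ((P (pol r θ)).im / (P (pol r θ)).re) +
        r θ * ((D.im * (P (pol r θ)).re - (P (pol r θ)).im * D.re) / (P (pol r θ)).re ^ 2) := by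
      have e1 : deriv (deriv r) θ =
          deriv (fun x => r x * ((P (pol r x)).im / (P (pol r x)).re)) θ := by
        rw [← hfun]
      rw [e1]
      exact hrr.deriv
    have hq' : |(D.im * (P (pol r θ)).re - (P (pol r θ)).im * D.re) / (P (pol r θ)).re ^ 2| ≤
        56 / 10000 := by
      have e1 := h400_num (-(P (pol r θ)).re) h (P (pol r θ)).im D.im D.re h2 h3 h1 hDim hDre
      rwa [neg_neg] at e1
    rw [hdd]
    refine (abs_add_le _ _).trans ?_
    rw [abs_mul, abs_mul, abs_of_pos (hpos θ)]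
    have f1 : |deriv r θ| * |(P (pol r θ)).im / (P (pol r θ)).re| ≤
        1155 / 100000 * (11 / 10000) :=
      mul_le_mul (hd1 θ) (hq θ) (abs_nonneg _) (by norm_num)
    have f2 : r θ * |(D.im * (P (pol r θ)).re - (P (pol r θ)).im * D.re) /
        (P (pol r θ)).re ^ 2| ≤ 21 / 2 * (56 / 10000) :=
      mul_le_mul (hr1 θ).2.le hq' (abs_nonneg _) (by norm_num)
    linarith

end J_r_bounds
export J_r_bounds (r_bounds)
end Pool.Agent.Helper785.TL5
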