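import Pool.Agent.Helper785.TL5.Defs
import Pool.Agent.Helper785.TL.P_fderiv_dz
import Pool.Agent.Helper785.TL.P_fderiv_re
import Pool.Agent.Helper785.TL5.P_convex10
import Pool.Agent.Helper785.TL5.P_out_bounds
import Pool.Agent.Helper785.TL5.P_level_curve
import Pool.Agent.Helper785.TL5.P_r_bounds
import Pool.Agent.Helper785.TL5.P_gam_bounds
import Pool.Agent.Helper785.TL5.P_ann_val
import Pool.Agent.Helper785.TL5.P_ann_der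

set_option autoImplicit false

namespace Pool.Agent.Helper785.TL5

open Set Metric Pool.Agent.Helper676.TL Pool.Agent.Helper785.TL
open scoped ContDiff

theorem An_sub_Ut (t : ℝ) (ht1 : t < 1 / 100) : An ⊆ Ut t := by
  intro ζ hζ
  have h1 : ‖ζ‖ - ‖(1 : ℂ)‖ ≤ ‖ζ - 1‖ := norm_sub_norm_le _ _
  have h2 : ‖ζ‖ - ‖(1 : ℂ)‖ ≤ ‖ζ + 1‖ := by
    have := norm_sub_norm_le ζ (-1)
    simpa using this
  rw [norm_one] at h1 h2
  have h3 := hζ.1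
  have h4 := hζ.2
  exact ⟨by linarith, by linarith, by linarith⟩

theorem isOpen_An : IsOpen An :=
  (isOpen_lt continuous_const continuous_norm).inter (isOpen_lt continuous_norm continuous_const)

theorem norm_pol (r : ℝ → ℝ) (θ : ℝ) (h : 0 < r θ) : ‖pol r θ‖ = r θ := by
  rw [pol, norm_mul, Complex.norm_exp_ofReal_mul_I, mul_one, Complex.norm_real, Real.norm_eq_abs,
    abs_of_pos h]

theorem pol_inj (r : ℝ → ℝ) (hr : ∀ θ, 0 < r θ) (θ₁ θ₂ : ℝ) (h1 : θ₁ ∈ Ico 0 (2 * Real.pi))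
    (h2 : θ₂ ∈ Ico 0 (2 * Real.pi)) (h : pol r θ₁ = pol r θ₂) : θ₁ = θ₂ := by
  have hn : r θ₁ = r θ₂ := by
    rw [← norm_pol r θ₁ (hr θ₁), ← norm_pol r θ₂ (hr θ₂), h]
  have he : Complex.exp (θ₁ * Complex.I) = Complex.exp (θ₂ * Complex.I) := by
    have h0 : (r θ₂ : ℂ) ≠ 0 := by exact_mod_cast (hr θ₂).ne'
    unfold pol at h
    rw [hn] at h
    exact mul_left_cancel₀ h0 h
  rw [Complex.exp_eq_exp_iff_exists_int] at he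
  obtain ⟨n, hn⟩ := he
  have h3 : θ₁ = θ₂ + n * (2 * Real.pi) := by
    have := congrArg Complex.im hn
    simpa using this
  have hp := Real.pi_pos
  have h4 : n = 0 := by
    have a1 : (n : ℝ) < 1 := by
      by_contra hc
      push Not at hc
      nlinarith [h1.1, h1.2, h2.1, h2.2]
    have a2 : (-1 : ℝ) < n := by
      by_contra hc
      push Not at hc
      nlinarith [h1.1, h1.2, h2.1, h2.2]
    have a1' : n < 1 := by exact_mod_cast a1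
    have a2' : -1 < n := by exact_mod_cast a2
    omega
  rw [h3, h4]
  simp

theorem ann_all (C : ℝ) (hC : 0 ≤ C) : ∃ t₁ : ℝ, 0 < t₁ ∧ t₁ < 1 / 100 ∧ ∀ t, 0 < t → t < t₁ →
    ∀ (h : ℝ) (a b : ℂ → ℂ), Fields C t h a b → ∀ ζ ∈ An,
      ‖a ζ ^ 2 - 1‖ ≤ 1 / 10000 ∧ ‖cj (b ζ) ^ 2‖ ≤ 1 / 10000 ∧
      ‖PP t a b ζ - P0 h ζ‖ ≤ 1 / 10000 ∧ DifferentiableAt ℝ (PP t a b) ζ ∧
      ‖fderiv ℝ (fun w => a w ^ 2) ζ‖ ≤ 1 / 10000 ∧
      ‖fderiv ℝ (fun w => cj (b w) ^ 2) ζ‖ ≤ 1 / 10000 ∧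
      ‖fderiv ℝ (fun w => PP t a b w - P0 h w) ζ‖ ≤ 1 / 10000 := by
  obtain ⟨C1, hC1, H1⟩ := ann_val C hC
  obtain ⟨C2, hC2, H2⟩ := ann_der C hC
  refine ⟨min (1 / 200) ((1 / (10000 * (C1 + C2))) ^ 2), lt_min (by norm_num) (by positivity),
    lt_of_le_of_lt (min_le_left _ _) (by norm_num), ?_⟩
  intro t ht htt h a b hF ζ hζ
  have t1 : t < 1 / 200 := lt_of_lt_of_le htt (min_le_left _ _)
  have t2 : t < (1 / (10000 * (C1 + C2))) ^ 2 := lt_of_lt_of_le htt (min_le_right _ _)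
  have t3 : t < 1 / 100 := by linarith
  have hs : Real.sqrt t ≤ 1 / (10000 * (C1 + C2)) := by
    rw [Real.sqrt_le_left (by positivity)]
    exact t2.le
  have hs0 := Real.sqrt_nonneg t
  have hs2 : (C1 + C2) * Real.sqrt t ≤ 1 / 10000 := by
    rw [le_div_iff₀ (by positivity)] at hs
    linarith
  have k1 : C1 * Real.sqrt t ≤ 1 / 10000 := by nlinarith
  have k2 : C2 * Real.sqrt t ≤ 1 / 10000 := by nlinarith
  obtain ⟨a1, -, a3, a4⟩ := H1 t h a b t3 hF ζ hζ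
  obtain ⟨b1, b2, b3, b4⟩ := H2 t h a b t3 hF ζ hζ
  exact ⟨a1.trans k1, a3.trans k1, a4.trans k1, b1, b2.trans k2, b3.trans k2, b4.trans k2⟩

/-- BLOCK B5 -/
theorem b5 (C : ℝ) (hC : 0 ≤ C) : ∃ t₁ : ℝ, 0 < t₁ ∧ t₁ < 1 / 100 ∧ ∀ t, 0 < t → t < t₁ →
    ∀ (h : ℝ) (a b f : ℂ → ℂ) (z : ℂ → ℝ), Fields C t h a b → SheetEq t a b f z →
    (∀ ζ₁ ∈ Gc t, ∀ ζ₂ ∈ Gc t, ‖ζ₁‖ ≤ 11 → ‖ζ₂‖ ≤ 11 → f ζ₁ = f ζ₂ → z ζ₁ = z ζ₂ → ζ₁ = ζ₂) →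
    (∀ ζ, 9 ≤ ‖ζ‖ → ‖ζ‖ ≤ 19 / 2 → z 10 < z ζ) ∧
    (∀ ζ, 21 / 2 ≤ ‖ζ‖ → ‖ζ‖ ≤ 11 → z ζ < z 10) ∧
    (∀ ζ, 9 ≤ ‖ζ‖ → ‖ζ‖ ≤ 11 → fderiv ℝ z ζ ζ < 0) ∧
    (∃ (K : Set ℂ) (γ : ℝ → ℂ), Convex ℝ K ∧ IsCompact K ∧ (interior K).Nonempty ∧
      ContDiff ℝ ∞ γ ∧ (∀ θ, γ (θ + 2 * Real.pi) = γ θ) ∧ InjOn γ (Ico 0 (2 * Real.pi)) ∧
      (∀ θ, deriv γ θ ≠ 0) ∧ range γ = frontier K ∧
      frontier K = f '' {ζ | 9 ≤ ‖ζ‖ ∧ ‖ζ‖ ≤ 11 ∧ z ζ = z 10}) := by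
  obtain ⟨t₁, ht₁, ht₁', H⟩ := ann_all C hC
  refine ⟨t₁, ht₁, ht₁', ?_⟩
  intro t ht htt h a b f z hF hS hinj
  have t100 : t < 1 / 100 := htt.trans ht₁'
  have hAn : ∀ ζ ∈ An, ζ ∈ Ut t := fun ζ hζ => An_sub_Ut t t100 hζ
  have H' := H t ht htt h a b hF
  have hUo := isOpen_Ut t
  have hz : ∀ ζ ∈ An, DifferentiableAt ℝ z ζ := fun ζ hζ =>
    (hS.cz.contDiffAt (hUo.mem_nhds (hAn ζ hζ))).differentiableAt (by simp)
  have hf : ∀ ζ ∈ An, DifferentiableAt ℝ f ζ := fun ζ hζ =>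
    (hS.cf.contDiffAt (hUo.mem_nhds (hAn ζ hζ))).differentiableAt (by simp)
  have hda : ∀ ζ ∈ An, DifferentiableAt ℝ a ζ := fun ζ hζ =>
    (hF.dirac.1.contDiffAt (hUo.mem_nhds (hAn ζ hζ))).differentiableAt (by simp)
  have hdb : ∀ ζ ∈ An, DifferentiableAt ℝ b ζ := fun ζ hζ =>
    (hF.dirac.2.1.contDiffAt (hUo.mem_nhds (hAn ζ hζ))).differentiableAt (by simp)
  have htc : (t : ℂ) ≠ 0 := by exact_mod_cast ht.ne'
  have hr : ∀ ζ ∈ An, fderiv ℝ z ζ ζ = t * (PP t a b ζ).re := by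
    intro ζ hζ
    rw [fderiv_re z ζ (hz ζ hζ) _ (hS.dzz ζ (hAn ζ hζ)) ζ]
    rw [← Complex.re_ofReal_mul]
    congr 1
    unfold PP
    field_simp
  have ha : ∀ ζ ∈ An, fderiv ℝ z ζ (Complex.I * ζ) = -(t * (PP t a b ζ).im) := by
    intro ζ hζ
    rw [fderiv_re z ζ (hz ζ hζ) _ (hS.dzz ζ (hAn ζ hζ)) (Complex.I * ζ)]
    rw [← Complex.im_ofReal_mul, ← Complex.I_mul_re]
    congr 1
    unfold PP
    field_simp
  have hP : ∀ ζ ∈ An, ‖PP t a b ζ - P0 h ζ‖ ≤ 1 / 10000 := fun ζ hζ => (H' ζ hζ).2.2.1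
  have hzAn : ContDiffOn ℝ ∞ z An := hS.cz.mono (fun ζ hζ => hAn ζ hζ)
  obtain ⟨o1, o2, o3⟩ := out_bounds t h (PP t a b) z ht hF.h1 hz hr ha hP
  obtain ⟨r, r1, r2, r3, r4, r5, r6, r7⟩ := level_curve t h (PP t a b) z ht hF.h1 hzAn hr ha hP
  have rb := r_bounds h hF.h1 (PP t a b) (fun ζ hζ => (H' ζ hζ).2.2.2.1) hP
    (fun ζ hζ => (H' ζ hζ).2.2.2.2.2.2) r r1 r2 r3 r4 r7
  have hrpos : ∀ θ, 0 < r θ := fun θ => by have := (r2 θ).1; linarith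
  have hcj : ∀ ζ ∈ An, DifferentiableAt ℝ (fun w => cj (b w) ^ 2) ζ := by
    intro ζ hζ
    have h1 : DifferentiableAt ℝ (fun w => cj (b w)) ζ :=
      (Complex.conjCLE.differentiableAt (x := b ζ)).comp ζ (hdb ζ hζ)
    exact h1.pow 2
  have gb := gam_bounds (fun w => a w ^ 2) (fun w => cj (b w) ^ 2) f r r1 r2 rb hf
    (by
      intro ζ hζ v
      rw [fderiv_dz, hS.dzf ζ (hAn ζ hζ), hS.dzbf ζ (hAn ζ hζ)]
      ring)
    (fun ζ hζ => (hda ζ hζ).pow 2) hcj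
    (fun ζ hζ => (H' ζ hζ).1) (fun ζ hζ => (H' ζ hζ).2.1)
    (fun ζ hζ => (H' ζ hζ).2.2.2.2.1) (fun ζ hζ => (H' ζ hζ).2.2.2.2.2.1)
  have hpolAn : ∀ θ, pol r θ ∈ An := by
    intro θ
    have hn := norm_pol r θ (hrpos θ)
    refine ⟨?_, ?_⟩
    · rw [hn]; have := (r2 θ).1; linarith
    · rw [hn]; have := (r2 θ).2; linarith
  have hpols : ContDiff ℝ ∞ (pol r) := by
    unfold pol
    have e1 : ContDiff ℝ ∞ (fun θ : ℝ => ((r θ : ℝ) : ℂ)) :=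
      Complex.ofRealCLM.contDiff.comp r1
    have e2 : ContDiff ℝ ∞ (fun θ : ℝ => Complex.exp (θ * Complex.I)) := by
      apply ContDiff.cexp
      exact Complex.ofRealCLM.contDiff.mul contDiff_const
    exact e1.mul e2
  have hγs : ContDiff ℝ ∞ (fun s => f (pol r s)) :=
    hS.cf.comp_contDiff hpols (fun θ => hAn _ (hpolAn θ))
  have hpper : ∀ θ, pol r (θ + 2 * Real.pi) = pol r θ := by
    intro θ
    unfold pol
    rw [r3 θ]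
    congr 1
    push_cast
    rw [add_mul, Complex.exp_add, Complex.exp_two_pi_mul_I, mul_one]
  have hγper : ∀ θ, (fun s => f (pol r s)) (θ + 2 * Real.pi) = (fun s => f (pol r s)) θ := by
    intro θ
    simp only [hpper θ]
  obtain ⟨K, k1, k2, k3, k4⟩ := convex10 (fun s => f (pol r s)) (hγs.of_le (by norm_cast))
    hγper (fun θ => (gb θ).1) (fun θ => (gb θ).2)
  have hpolGc : ∀ θ, pol r θ ∈ Gc t := by
    intro θ
    have hn := norm_pol r θ (hrpos θ)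
    have h1 : ‖pol r θ‖ - ‖(1 : ℂ)‖ ≤ ‖pol r θ - 1‖ := norm_sub_norm_le _ _
    have h2 : ‖pol r θ‖ - ‖(1 : ℂ)‖ ≤ ‖pol r θ + 1‖ := by
      have := norm_sub_norm_le (pol r θ) (-1)
      simpa using this
    rw [norm_one, hn] at h1 h2
    have h3 := (r2 θ).1
    have h4 := (r2 θ).2
    exact ⟨by rw [hn]; linarith, by linarith, by linarith⟩
  refine ⟨o1, o2, o3, K, fun s => f (pol r s), k1, k2, k3, hγs, hγper, ?_, ?_, k4.symm, ?_⟩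
  · intro θ₁ h1 θ₂ h2 he
    apply pol_inj r hrpos θ₁ θ₂ h1 h2
    apply hinj _ (hpolGc θ₁) _ (hpolGc θ₂)
    · rw [norm_pol r θ₁ (hrpos θ₁)]; have := (r2 θ₁).2; linarith
    · rw [norm_pol r θ₂ (hrpos θ₂)]; have := (r2 θ₂).2; linarith
    · exact he
    · rw [r5 θ₁, r5 θ₂]
  · intro θ h0
    have := (gb θ).1
    rw [h0, zero_sub, norm_neg, norm_mul, norm_mul, Complex.norm_I,
      Complex.norm_exp_ofReal_mul_I] at this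
    norm_num at this
  · rw [k4]
    apply Subset.antisymm
    · rintro _ ⟨θ, rfl⟩
      refine ⟨pol r θ, ⟨?_, ?_, r5 θ⟩, rfl⟩
      · rw [norm_pol r θ (hrpos θ)]; have := (r2 θ).1; linarith
      · rw [norm_pol r θ (hrpos θ)]; have := (r2 θ).2; linarith
    · rintro _ ⟨ζ, ⟨h1, h2, h3⟩, rfl⟩
      obtain ⟨θ, hθ⟩ := r6 ζ h1 h2 h3
      exact ⟨θ, by rw [hθ]⟩

end Pool.Agent.Helper785.TL5
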