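import Mathlib
import Pool.Agent.Helper785.TL.Defs

set_option autoImplicit false

namespace Pool.Agent.Helper785.TL5

open Set Metric Pool.Agent.Helper676.TL Pool.Agent.Helper785.TL
open scoped ContDiff

/-- the outer annulus -/
def An : Set ℂ := {ζ | 17 / 2 < ‖ζ‖ ∧ ‖ζ‖ < 23 / 2}

/-- `P = 2 a b ζ / t` -/
noncomputable def PP (t : ℝ) (a b : ℂ → ℂ) (ζ : ℂ) : ℂ := 2 * a ζ * b ζ * ζ / t

/-- the limit of `PP` -/
noncomputable def P0 (h : ℝ) (ζ : ℂ) : ℂ := 4 + 4 / (ζ ^ 2 - 1) - h * (ζ * cj ζ)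

/-- the point of the annulus with polar coordinates `(r θ, θ)` -/
noncomputable def pol (r : ℝ → ℝ) (θ : ℝ) : ℂ := (r θ : ℂ) * Complex.exp (θ * Complex.I)

end Pool.Agent.Helper785.TL5
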