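import Pool.Agent.Helper785.TL5.Defs
import Pool.Agent.Helper785.TL5.P_ann_val

set_option autoImplicit false
open Set Metric Pool.Agent.Helper676.TL Pool.Agent.Helper785.TL
open scoped ContDiff

namespace Pool.Agent.Helper785.TL5
namespace J_ann_der








theorem ann_der_mul {f g : ℂ → ℂ} {ζ : ℂ} (hf : DifferentiableAt ℝ f ζ)
    (hg : DifferentiableAt ℝ g ζ) :
    ‖fderiv ℝ (fun w => f w * g w) ζ‖ ≤ ‖f ζ‖ * ‖fderiv ℝ g ζ‖ + ‖g ζ‖ * ‖fderiv ℝ f ζ‖ := by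
  rw [fderiv_fun_mul hf hg]
  refine (norm_add_le _ _).trans ?_
  rw [norm_smul, norm_smul]

theorem ann_der_add {f g : ℂ → ℂ} {ζ : ℂ} (hf : DifferentiableAt ℝ f ζ)
    (hg : DifferentiableAt ℝ g ζ) :
    ‖fderiv ℝ (fun w => f w + g w) ζ‖ ≤ ‖fderiv ℝ f ζ‖ + ‖fderiv ℝ g ζ‖ := by
  rw [fderiv_fun_add hf hg]
  exact norm_add_le _ _

theorem ann_der_hol {f : ℂ → ℂ} {d ζ : ℂ} (h : HasDerivAt f d ζ) :
    ∃ L : ℂ →L[ℝ] ℂ, HasFDerivAt f L ζ ∧ ‖L‖ ≤ ‖d‖ := by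
  refine ⟨_, h.complexToReal_fderiv, ?_⟩
  rw [norm_smul]
  calc ‖d‖ * ‖(1 : ℂ →L[ℝ] ℂ)‖ ≤ ‖d‖ * 1 := by
        refine mul_le_mul_of_nonneg_left ?_ (norm_nonneg _)
        exact ContinuousLinearMap.norm_id_le
    _ = ‖d‖ := mul_one _

theorem ann_der_cj (ζ : ℂ) :
    ∃ L : ℂ →L[ℝ] ℂ, HasFDerivAt (fun w : ℂ => cj w) L ζ ∧ ‖L‖ ≤ 1 := by
  refine ⟨(Complex.conjCLE : ℂ →L[ℝ] ℂ), Complex.conjCLE.hasFDerivAt, ?_⟩
  exact le_of_eq Complex.conjCLE_norm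

theorem ann_der_inv (t : ℝ) (ht : 0 < t) (c ζ : ℂ) (hc : 1 < ‖ζ - c‖) :
    ∃ L : ℂ →L[ℝ] ℂ, HasFDerivAt (fun w : ℂ => (t : ℂ) / (w - c)) L ζ ∧
      ‖L‖ ≤ t / ‖ζ - c‖ ^ 2 := by
  have hne : ζ - c ≠ 0 := by
    intro h0
    rw [h0, norm_zero] at hc
    linarith
  have h1 : HasDerivAt (fun w : ℂ => (t : ℂ) / (w - c)) (-(t : ℂ) / (ζ - c) ^ 2) ζ := by
    have h2 : HasDerivAt (fun w : ℂ => w - c) 1 ζ := (hasDerivAt_id ζ).sub_const c
    have h3 := (hasDerivAt_const ζ (t : ℂ)).div h2 hne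
    refine h3.congr_deriv ?_
    ring
  obtain ⟨L, hL, hn⟩ := ann_der_hol h1
  refine ⟨L, hL, hn.trans (le_of_eq ?_)⟩
  rw [norm_div, norm_neg, norm_pow, Complex.norm_real, Real.norm_eq_abs, abs_of_pos ht]

theorem ann_der_far {ζ : ℂ} (hζ : ζ ∈ An) : 15 / 2 < ‖ζ - 1‖ ∧ 15 / 2 < ‖ζ + 1‖ := by
  have h1 : ‖ζ‖ ≤ ‖ζ - 1‖ + 1 := by
    calc ‖ζ‖ = ‖(ζ - 1) + 1‖ := by rw [sub_add_cancel]
      _ ≤ ‖ζ - 1‖ + ‖(1 : ℂ)‖ := norm_add_le _ _
      _ = ‖ζ - 1‖ + 1 := by rw [norm_one]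
  have h2 : ‖ζ‖ ≤ ‖ζ + 1‖ + 1 := by
    calc ‖ζ‖ = ‖(ζ + 1) - 1‖ := by rw [add_sub_cancel_right]
      _ ≤ ‖ζ + 1‖ + ‖(1 : ℂ)‖ := norm_sub_le _ _
      _ = ‖ζ + 1‖ + 1 := by rw [norm_one]
  have h3 := hζ.1
  constructor <;> linarith

theorem ann_der_b1 (t h : ℝ) (ht : 0 < t) (h1 : 1 / 2 ≤ h) (h2 : h ≤ 2) {ζ : ℂ} (hζ : ζ ∈ An) :
    ∃ L : ℂ →L[ℝ] ℂ, HasFDerivAt
      (fun ζ : ℂ => (t / (ζ - 1) + t / (ζ + 1) - (t * h / 2 : ℝ) * cj ζ : ℂ)) L ζ ∧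
      ‖L‖ ≤ 2 * t := by
  obtain ⟨hm, hp⟩ := ann_der_far hζ
  obtain ⟨L1, hL1, n1⟩ := ann_der_inv t ht 1 ζ (by linarith)
  obtain ⟨L2, hL2, n2⟩ := ann_der_inv t ht (-1) ζ (by rw [sub_neg_eq_add]; linarith)
  obtain ⟨L3, hL3, n3⟩ := ann_der_cj ζ
  simp only [sub_neg_eq_add] at hL2 n2
  have hL4 := hL3.const_mul ((t * h / 2 : ℝ) : ℂ)
  refine ⟨_, (hL1.add hL2).sub hL4, ?_⟩
  have b1 : t / ‖ζ - 1‖ ^ 2 ≤ t / 4 := by
    refine div_le_div_of_nonneg_left ht.le (by norm_num) ?_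
    nlinarith
  have b2 : t / ‖ζ + 1‖ ^ 2 ≤ t / 4 := by
    refine div_le_div_of_nonneg_left ht.le (by norm_num) ?_
    nlinarith
  have b3 : ‖((t * h / 2 : ℝ) : ℂ) • L3‖ ≤ t := by
    rw [norm_smul, Complex.norm_real, Real.norm_eq_abs, abs_of_nonneg (by positivity)]
    calc t * h / 2 * ‖L3‖ ≤ t * h / 2 * 1 := mul_le_mul_of_nonneg_left n3 (by positivity)
      _ ≤ t := by nlinarith
  calc ‖L1 + L2 - ((t * h / 2 : ℝ) : ℂ) • L3‖ ≤ ‖L1 + L2‖ + ‖((t * h / 2 : ℝ) : ℂ) • L3‖ :=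
        norm_sub_le _ _
    _ ≤ (‖L1‖ + ‖L2‖) + ‖((t * h / 2 : ℝ) : ℂ) • L3‖ := by gcongr; exact norm_add_le _ _
    _ ≤ 2 * t := by linarith

theorem ann_der_open : IsOpen An := by
  have h1 : Continuous fun ζ : ℂ => ‖ζ‖ := continuous_norm
  exact (isOpen_lt continuous_const h1).inter (isOpen_lt h1 continuous_const)

theorem ann_der_Gc {t : ℝ} (ht : t < 1 / 100) {ζ : ℂ} (hζ : ζ ∈ An) : ζ ∈ Gc t := by
  obtain ⟨hm, hp⟩ := ann_der_far hζ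
  exact ⟨by linarith [hζ.2], by linarith, by linarith⟩

theorem ann_der_id {t h : ℝ} (ht : 0 < t) (a b : ℂ → ℂ) {w : ℂ} (hw : w ∈ An) :
    PP t a b w - P0 h w = ((2 / t : ℝ) : ℂ) * (w * ((a w - 1) * b w +
      (b w - (t / (w - 1) + t / (w + 1) - (t * h / 2 : ℝ) * cj w)))) := by
  obtain ⟨hm, hp⟩ := ann_der_far hw
  have n1 : w - 1 ≠ 0 := by
    intro h0
    rw [h0, norm_zero] at hm
    linarith
  have n2 : w + 1 ≠ 0 := by
    intro h0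
    rw [h0, norm_zero] at hp
    linarith
  have n3 : w ^ 2 - 1 ≠ 0 := by
    have : w ^ 2 - 1 = (w - 1) * (w + 1) := by ring
    rw [this]
    exact mul_ne_zero n1 n2
  have n4 : (t : ℂ) ≠ 0 := by exact_mod_cast ht.ne'
  have e3 : 4 / (w ^ 2 - 1) = 2 / (w - 1) - 2 / (w + 1) := by
    field_simp
    ring
  unfold PP P0
  rw [e3]
  push_cast
  generalize cj w = q
  field_simp
  ring

theorem ann_der (C : ℝ) (hC : 0 ≤ C) : ∃ C' : ℝ, 0 < C' ∧ ∀ (t h : ℝ) (a b : ℂ → ℂ),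
    t < 1 / 100 → Fields C t h a b → ∀ ζ ∈ An,
      DifferentiableAt ℝ (PP t a b) ζ ∧
      ‖fderiv ℝ (fun w => a w ^ 2) ζ‖ ≤ C' * Real.sqrt t ∧
      ‖fderiv ℝ (fun w => cj (b w) ^ 2) ζ‖ ≤ C' * Real.sqrt t ∧
      ‖fderiv ℝ (fun w => PP t a b w - P0 h w) ζ‖ ≤ C' * Real.sqrt t := by
  obtain ⟨C1, hC1, hval⟩ := ann_val C hC
  refine ⟨1 + 2 * (1 + C) * C + 2 * C1 * (2 + C) +
    2 * (23 / 2 * (C * (2 + C) + C1 * C + C) + (C * C1 + 2 * C)), by positivity, ?_⟩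
  intro t h a b ht100 hF ζ hζ
  obtain ⟨-, hbval, -, -⟩ := hval t h a b ht100 hF ζ hζ
  have ht := hF.ht
  have hsq0 : 0 ≤ Real.sqrt t := Real.sqrt_nonneg t
  have hsq : Real.sqrt t * Real.sqrt t = t := Real.mul_self_sqrt ht.le
  have hsq1 : Real.sqrt t ≤ 1 := Real.sqrt_le_one.2 (by linarith)
  have htsq : t ≤ Real.sqrt t := by nlinarith
  have hGc := ann_der_Gc ht100 hζ
  have hUt := Gc_sub_Ut t ht hGc
  have hda : DifferentiableAt ℝ a ζ :=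
    (hF.dirac.1.contDiffAt ((isOpen_Ut t).mem_nhds hUt)).differentiableAt (by simp)
  have hdb : DifferentiableAt ℝ b ζ :=
    (hF.dirac.2.1.contDiffAt ((isOpen_Ut t).mem_nhds hUt)).differentiableAt (by simp)
  obtain ⟨L, hL, hLn⟩ := ann_der_b1 t h ht hF.h1 hF.h2 hζ
  set b1 : ℂ → ℂ := fun ζ => (t / (ζ - 1) + t / (ζ + 1) - (t * h / 2 : ℝ) * cj ζ : ℂ) with hb1
  have hdb1 : DifferentiableAt ℝ b1 ζ := hL.differentiableAt
  have hfb1 : ‖fderiv ℝ b1 ζ‖ ≤ 2 * t := by rw [hL.fderiv]; exact hLn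
  have hest_da : ‖fderiv ℝ a ζ‖ ≤ C * t := hF.est_da ζ hζ.1 hζ.2
  have hest_db : ‖fderiv ℝ (fun w => b w - b1 w) ζ‖ ≤ C * t * Real.sqrt t :=
    hF.est_db ζ hζ.1 hζ.2
  have hest_a : ‖a ζ - 1‖ ≤ C * t := hF.est_a ζ hGc
  have hest_b : ‖b ζ - b1 ζ‖ ≤ 2 * C * (t * Real.sqrt t) := by
    have h0 := hF.est_b ζ hGc
    obtain ⟨hm, hp⟩ := ann_der_far hζ
    have b1' : t / ‖ζ - 1‖ ≤ t / 2 := by
      refine div_le_div_of_nonneg_left ht.le (by norm_num) ?_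
      linarith
    have b2' : t / ‖ζ + 1‖ ≤ t / 2 := by
      refine div_le_div_of_nonneg_left ht.le (by norm_num) ?_
      linarith
    calc ‖b ζ - b1 ζ‖ ≤ C * t * (Real.sqrt t + t / ‖ζ - 1‖ + t / ‖ζ + 1‖) := h0
      _ ≤ C * t * (2 * Real.sqrt t) := by
          refine mul_le_mul_of_nonneg_left ?_ (by positivity)
          linarith
      _ = 2 * C * (t * Real.sqrt t) := by ring
  have hfb : ‖fderiv ℝ b ζ‖ ≤ (2 + C) * t := by
    have e : b = fun w => b1 w + (b w - b1 w) := by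
      funext w; ring
    have h3 := ann_der_add hdb1 (hdb.fun_sub hdb1)
    rw [← e] at h3
    have h4 : C * t * Real.sqrt t ≤ C * t * 1 := mul_le_mul_of_nonneg_left hsq1 (by positivity)
    linarith
  have hna : ‖a ζ‖ ≤ 1 + C := by
    calc ‖a ζ‖ = ‖(a ζ - 1) + 1‖ := by rw [sub_add_cancel]
      _ ≤ ‖a ζ - 1‖ + ‖(1 : ℂ)‖ := norm_add_le _ _
      _ ≤ 1 + C := by
        rw [norm_one]
        nlinarith
  have htt : t * t ≤ t * Real.sqrt t := mul_le_mul_of_nonneg_left htsq ht.le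
  refine ⟨?_, ?_, ?_, ?_⟩
  · unfold PP
    exact (((hda.const_mul 2).mul hdb).mul differentiableAt_id).mul_const _
  · have e : (fun w => a w ^ 2) = fun w => a w * a w := by
      funext w; ring
    rw [e]
    have h3 := ann_der_mul hda hda
    have h5 : ‖a ζ‖ * ‖fderiv ℝ a ζ‖ ≤ (1 + C) * (C * t) :=
      mul_le_mul hna hest_da (norm_nonneg _) (by positivity)
    have h6 : (1 + C) * (C * t) ≤ (1 + C) * (C * Real.sqrt t) := by gcongr
    calc ‖fderiv ℝ (fun w => a w * a w) ζ‖ ≤ 2 * (1 + C) * C * Real.sqrt t := by linarith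
      _ ≤ _ := by
        refine mul_le_mul_of_nonneg_right ?_ hsq0
        have p1 : 0 ≤ 2 * C1 * (2 + C) := by positivity
        have p2 : 0 ≤ 2 * (23 / 2 * (C * (2 + C) + C1 * C + C) + (C * C1 + 2 * C)) := by positivity
        linarith
  · have e : (fun w => cj (b w) ^ 2) = fun w => cj (b w) * cj (b w) := by
      funext w; ring
    rw [e]
    obtain ⟨M, hM, hMn⟩ := ann_der_cj (b ζ)
    have hcomp := hM.comp ζ hdb.hasFDerivAt
    have hdcb : DifferentiableAt ℝ (fun w => cj (b w)) ζ := hcomp.differentiableAt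
    have hfcb : ‖fderiv ℝ (fun w => cj (b w)) ζ‖ ≤ (2 + C) * t := by
      have e2 : fderiv ℝ (fun w => cj (b w)) ζ = M.comp (fderiv ℝ b ζ) := hcomp.fderiv
      rw [e2]
      calc ‖M.comp (fderiv ℝ b ζ)‖ ≤ ‖M‖ * ‖fderiv ℝ b ζ‖ := ContinuousLinearMap.opNorm_comp_le _ _
        _ ≤ 1 * ((2 + C) * t) := mul_le_mul hMn hfb (norm_nonneg _) zero_le_one
        _ = (2 + C) * t := one_mul _
    have h3 := ann_der_mul hdcb hdcb
    have h4 : ‖cj (b ζ)‖ = ‖b ζ‖ := RCLike.norm_conj _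
    rw [h4] at h3
    have h5 : ‖b ζ‖ * ‖fderiv ℝ (fun w => cj (b w)) ζ‖ ≤ (C1 * t) * ((2 + C) * t) :=
      mul_le_mul hbval hfcb (norm_nonneg _) (by positivity)
    have h6 : (C1 * t) * ((2 + C) * t) ≤ C1 * (2 + C) * Real.sqrt t := by
      have : t * t ≤ Real.sqrt t := by nlinarith
      calc (C1 * t) * ((2 + C) * t) = C1 * (2 + C) * (t * t) := by ring
        _ ≤ _ := mul_le_mul_of_nonneg_left this (by positivity)
    calc ‖fderiv ℝ (fun w => cj (b w) * cj (b w)) ζ‖ ≤ 2 * C1 * (2 + C) * Real.sqrt t := by linarith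
      _ ≤ _ := by
        refine mul_le_mul_of_nonneg_right ?_ hsq0
        have p1 : 0 ≤ 2 * (1 + C) * C := by positivity
        have p2 : 0 ≤ 2 * (23 / 2 * (C * (2 + C) + C1 * C + C) + (C * C1 + 2 * C)) := by positivity
        linarith
  · have heq : (fun w => PP t a b w - P0 h w) =ᶠ[nhds ζ]
        fun w => ((2 / t : ℝ) : ℂ) * (w * ((a w - 1) * b w + (b w - b1 w))) := by
      filter_upwards [ann_der_open.mem_nhds hζ] with w hw
      exact ann_der_id ht a b hw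
    rw [heq.fderiv_eq]
    have hda1 : DifferentiableAt ℝ (fun w => a w - 1) ζ := hda.sub_const 1
    have hfa1 : ‖fderiv ℝ (fun w => a w - 1) ζ‖ ≤ C * t := by
      rw [fderiv_sub_const]
      exact hest_da
    have hdR1 : DifferentiableAt ℝ (fun w => (a w - 1) * b w) ζ := hda1.fun_mul hdb
    have hdR2 : DifferentiableAt ℝ (fun w => b w - b1 w) ζ := hdb.fun_sub hdb1
    have hdR : DifferentiableAt ℝ (fun w => (a w - 1) * b w + (b w - b1 w)) ζ := hdR1.fun_add hdR2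
    have hfR : ‖fderiv ℝ (fun w => (a w - 1) * b w + (b w - b1 w)) ζ‖ ≤
        (C * (2 + C) + C1 * C + C) * (t * Real.sqrt t) := by
      have h3 := ann_der_add hdR1 hdR2
      have h4 := ann_der_mul hda1 hdb
      have h5 : ‖a ζ - 1‖ * ‖fderiv ℝ b ζ‖ ≤ (C * t) * ((2 + C) * t) :=
        mul_le_mul hest_a hfb (norm_nonneg _) (by positivity)
      have h6 : ‖b ζ‖ * ‖fderiv ℝ (fun w => a w - 1) ζ‖ ≤ (C1 * t) * (C * t) :=
        mul_le_mul hbval hfa1 (norm_nonneg _) (by positivity)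
      have h7 : (C * (2 + C) + C1 * C) * (t * t) ≤ (C * (2 + C) + C1 * C) * (t * Real.sqrt t) :=
        mul_le_mul_of_nonneg_left htt (by positivity)
      linarith
    have hnR : ‖(a ζ - 1) * b ζ + (b ζ - b1 ζ)‖ ≤ (C * C1 + 2 * C) * (t * Real.sqrt t) := by
      have h5 : ‖a ζ - 1‖ * ‖b ζ‖ ≤ (C * t) * (C1 * t) :=
        mul_le_mul hest_a hbval (norm_nonneg _) (by positivity)
      have h7 : (C * C1) * (t * t) ≤ (C * C1) * (t * Real.sqrt t) :=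
        mul_le_mul_of_nonneg_left htt (by positivity)
      calc ‖(a ζ - 1) * b ζ + (b ζ - b1 ζ)‖ ≤ ‖(a ζ - 1) * b ζ‖ + ‖b ζ - b1 ζ‖ := norm_add_le _ _
        _ = ‖a ζ - 1‖ * ‖b ζ‖ + ‖b ζ - b1 ζ‖ := by rw [norm_mul]
        _ ≤ _ := by linarith
    have hdwR : DifferentiableAt ℝ (fun w => w * ((a w - 1) * b w + (b w - b1 w))) ζ :=
      differentiableAt_id.fun_mul hdR
    have hfwR : ‖fderiv ℝ (fun w => w * ((a w - 1) * b w + (b w - b1 w))) ζ‖ ≤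
        (23 / 2 * (C * (2 + C) + C1 * C + C) + (C * C1 + 2 * C)) * (t * Real.sqrt t) := by
      have h3 := ann_der_mul (f := fun w => w) differentiableAt_fun_id hdR
      have h4 : ‖fderiv ℝ (fun w : ℂ => w) ζ‖ ≤ 1 := by
        rw [fderiv_fun_id]
        exact ContinuousLinearMap.norm_id_le
      have h5 : ‖ζ‖ * ‖fderiv ℝ (fun w => (a w - 1) * b w + (b w - b1 w)) ζ‖ ≤
          23 / 2 * ((C * (2 + C) + C1 * C + C) * (t * Real.sqrt t)) :=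
        mul_le_mul hζ.2.le hfR (norm_nonneg _) (by norm_num)
      have h6 : ‖(a ζ - 1) * b ζ + (b ζ - b1 ζ)‖ * ‖fderiv ℝ (fun w : ℂ => w) ζ‖ ≤
          ((C * C1 + 2 * C) * (t * Real.sqrt t)) * 1 :=
        mul_le_mul hnR h4 (norm_nonneg _) (by positivity)
      linarith
    have hfin := ann_der_mul (f := fun _ : ℂ => ((2 / t : ℝ) : ℂ)) (differentiableAt_const _) hdwR
    rw [fderiv_fun_const] at hfin
    simp only [Pi.zero_apply, norm_zero, mul_zero, add_zero] at hfin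
    refine hfin.trans ?_
    rw [Complex.norm_real, Real.norm_eq_abs, abs_of_pos (by positivity)]
    calc 2 / t * ‖fderiv ℝ (fun w => w * ((a w - 1) * b w + (b w - b1 w))) ζ‖
        ≤ 2 / t * ((23 / 2 * (C * (2 + C) + C1 * C + C) + (C * C1 + 2 * C)) * (t * Real.sqrt t)) :=
          mul_le_mul_of_nonneg_left hfwR (by positivity)
      _ = 2 * (23 / 2 * (C * (2 + C) + C1 * C + C) + (C * C1 + 2 * C)) * Real.sqrt t := by
          field_simp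
      _ ≤ _ := by
        refine mul_le_mul_of_nonneg_right ?_ hsq0
        have p1 : 0 ≤ 2 * (1 + C) * C := by positivity
        have p2 : 0 ≤ 2 * C1 * (2 + C) := by positivity
        linarith

end J_ann_der
export J_ann_der (ann_der)
end Pool.Agent.Helper785.TL5
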